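import Pool.Agent.Helper11Z.Faith

/-!
# Counting lemmas
-/

set_option autoImplicit false

namespace Pool.Agent.Helper11Z

open Subgroup commutatorElement

variable {G : Type} [Group G]

theorem card_le_of_classes [Finite G] (S : Set G) (n b : ℕ)
    (hn : (ConjClasses.mk '' S).ncard ≤ n) (hb : ∀ x ∈ S, {y | IsConj x y}.ncard ≤ b) :
    S.ncard ≤ n * b := by
  classical
  have := Fintype.ofFinite G
  have h1 : S.toFinset.card ≤ b * (S.toFinset.image ConjClasses.mk).card := by
    apply Finset.card_le_mul_card_image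
    intro c hc
    obtain ⟨x, hx, rfl⟩ := Finset.mem_image.1 hc
    refine le_trans ?_ (hb x (Set.mem_toFinset.1 hx))
    rw [← Set.ncard_coe_finset]
    apply Set.ncard_le_ncard _ (Set.toFinite _)
    intro y hy
    have h2 := (Finset.mem_filter.1 (Finset.mem_coe.1 hy)).2
    exact (ConjClasses.mk_eq_mk_iff_isConj.1 h2).symm
  have h2 : (S.toFinset.image ConjClasses.mk).card = (ConjClasses.mk '' S).ncard := by
    rw [← Set.ncard_coe_finset, Finset.coe_image, Set.coe_toFinset]
  rw [Set.ncard_eq_toFinset_card']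
  calc _ ≤ b * (S.toFinset.image ConjClasses.mk).card := h1
    _ ≤ b * n := Nat.mul_le_mul_left _ (h2 ▸ hn)
    _ = n * b := mul_comm _ _

theorem class_ncard_le [Finite G] (K : Subgroup G) (x : G) (S : Set G)
    (h : ∀ k ∈ K, k * x * k⁻¹ ∈ S) : {y | IsConj x y}.ncard ≤ K.index * S.ncard := by
  classical
  have hsub : {y | IsConj x y} ⊆
      (fun p : (G ⧸ K) × G => p.1.out * p.2 * p.1.out⁻¹) '' (Set.univ ×ˢ S) := by
    intro y hy
    obtain ⟨g, hg⟩ := isConj_iff.1 hy
    have h1 : (((g : G ⧸ K)).out)⁻¹ * g ∈ K := by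
      rw [← QuotientGroup.eq]; simp
    refine ⟨((g : G ⧸ K), ((((g : G ⧸ K)).out)⁻¹ * g) * x * ((((g : G ⧸ K)).out)⁻¹ * g)⁻¹),
      ⟨trivial, h _ h1⟩, ?_⟩
    change ((g : G ⧸ K)).out * (((((g : G ⧸ K)).out)⁻¹ * g) * x *
      ((((g : G ⧸ K)).out)⁻¹ * g)⁻¹) * (((g : G ⧸ K)).out)⁻¹ = y
    rw [← hg]
    group
  refine (Set.ncard_le_ncard hsub (Set.toFinite _)).trans ?_
  refine (Set.ncard_image_le (Set.toFinite _)).trans ?_
  rw [Set.ncard_prod, Set.ncard_univ]
  rfl

theorem card_le_map_mul [Finite G] (A N : Subgroup G) [N.Normal] :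
    Nat.card A ≤ Nat.card (A.map (QuotientGroup.mk' N)) * Nat.card N := by
  let f : A →* G ⧸ N := (QuotientGroup.mk' N).comp A.subtype
  have h1 : Nat.card f.ker * f.ker.index = Nat.card A := f.ker.card_mul_index
  have h2 : f.ker.index = Nat.card f.range := Subgroup.index_ker f
  have h3 : f.range = A.map (QuotientGroup.mk' N) := by
    rw [MonoidHom.range_comp, Subgroup.range_subtype]
  have h4 : Nat.card f.ker ≤ Nat.card N := by
    have hk : ∀ x : f.ker, ((x : A) : G) ∈ N := fun x =>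
      (QuotientGroup.eq_one_iff _).1 x.2
    apply Nat.card_le_card_of_injective (fun x : f.ker => (⟨((x : A) : G), hk x⟩ : N))
    intro x y hxy
    apply Subtype.ext
    apply Subtype.ext
    exact congrArg (fun z : N => (z : G)) hxy
  rw [← h1, h2, h3, mul_comm]
  exact Nat.mul_le_mul_left _ h4

/-- Bound for abelian normal subgroups. -/
theorem layer [Finite G] (K A : Subgroup G) [K.Normal] [A.Normal] (n : ℕ)
    (hn : (ConjClasses.mk '' {x | x ∈ A ∧ x ≠ 1}).ncard ≤ n) :
    Nat.card A ≤ (n + 1) * K.index * Nat.card (⁅A, K⁆ : Subgroup G) := by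
  classical
  set N : Subgroup G := ⁅A, K⁆ with hN
  set π : G →* G ⧸ N := QuotientGroup.mk' N with hπ
  have hs : Function.Surjective π := QuotientGroup.mk'_surjective N
  refine (card_le_map_mul A N).trans (Nat.mul_le_mul_right _ ?_)
  rw [← hπ]
  change Nat.card ((A.map π : Subgroup (G ⧸ N)) : Set (G ⧸ N)) ≤ _
  rw [Nat.card_coe_set_eq]
  apply card_le_of_classes
  · have h1 : ConjClasses.mk '' ((A.map π : Subgroup (G ⧸ N)) : Set (G ⧸ N)) =
        ConjClasses.map π '' (ConjClasses.mk '' (A : Set G)) := by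
      rw [Set.image_image, Subgroup.coe_map, Set.image_image]
      rfl
    rw [h1]
    refine (Set.ncard_image_le (Set.toFinite _)).trans ?_
    have h2 : ConjClasses.mk '' (A : Set G) ⊆
        insert (ConjClasses.mk 1) (ConjClasses.mk '' {x | x ∈ A ∧ x ≠ 1}) := by
      rintro _ ⟨x, hx, rfl⟩
      by_cases h : x = 1
      · rw [h]; exact Set.mem_insert _ _
      · exact Set.mem_insert_of_mem _ ⟨x, ⟨hx, h⟩, rfl⟩
    refine (Set.ncard_le_ncard h2 (Set.toFinite _)).trans ?_
    refine (Set.ncard_insert_le _ _).trans ?_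
    omega
  · rintro _ ⟨x, hx, rfl⟩
    have h1 := class_ncard_le (K.map π) (π x) {π x} (by
      rintro _ ⟨k, hk, rfl⟩
      rw [Set.mem_singleton_iff]
      have h2 : Commute (π x) (π k) := commute_mod N (commutator_mem_commutator hx hk)
      rw [← h2.eq, mul_inv_cancel_right])
    rw [Set.ncard_singleton, mul_one] at h1
    refine h1.trans ?_
    apply Nat.le_of_dvd
    · exact Nat.pos_of_ne_zero K.index_ne_zero_of_finite
    · exact Subgroup.index_map_dvd K hs

theorem ab_bound [Finite G] (K : Subgroup G) [K.Normal] (hK : ∃ n, K.lowerCentralSeries n = ⊥)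
    (M : ℕ) : ∀ (n : ℕ), n ≤ M → ∀ (A : Subgroup G), A.Normal → A ≤ K →
      (ConjClasses.mk '' {x | x ∈ A ∧ x ≠ 1}).ncard ≤ n →
      Nat.card A ≤ ((M + 1) * K.index) ^ n := by
  classical
  have hpos : 1 ≤ (M + 1) * K.index :=
    Nat.one_le_iff_ne_zero.2 (mul_ne_zero (by omega) K.index_ne_zero_of_finite)
  intro n
  induction n with
  | zero =>
    intro _ A hA hAK h0
    have h1 : A = ⊥ := by
      rw [Subgroup.eq_bot_iff_forall]
      intro x hx
      by_contra hx1
      have h2 : (ConjClasses.mk '' {x | x ∈ A ∧ x ≠ 1}) = ∅ := by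
        rwa [Nat.le_zero, Set.ncard_eq_zero (Set.toFinite _)] at h0
      have h3 : ConjClasses.mk x ∈ (ConjClasses.mk '' {x | x ∈ A ∧ x ≠ 1}) := ⟨x, ⟨hx, hx1⟩, rfl⟩
      rw [h2] at h3
      exact h3
    rw [h1]
    simp
  | succ n ih =>
    intro hnM A hA hAK hn
    by_cases hA0 : A = ⊥
    · rw [hA0]
      simp only [Subgroup.card_bot]
      exact Nat.one_le_pow _ _ hpos
    have hne : ¬ A ≤ ⁅A, K⁆ := by
      intro h
      apply hA0
      obtain ⟨m, hm⟩ := hK
      rw [eq_bot_iff, ← hm]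
      have : ∀ i, A ≤ K.lowerCentralSeries i := by
        intro i
        induction i with
        | zero => exact hAK
        | succ i ihi => exact h.trans (commutator_mono ihi le_rfl)
      exact this m
    obtain ⟨x, hxA, hx⟩ := SetLike.not_le_iff_exists.1 hne
    have hle : ⁅A, K⁆ ≤ A := commutator_le_left A K
    have h1 : (ConjClasses.mk '' {x | x ∈ (⁅A, K⁆ : Subgroup G) ∧ x ≠ 1}).ncard ≤ n := by
      have hsub : insert (ConjClasses.mk x)
          (ConjClasses.mk '' {x | x ∈ (⁅A, K⁆ : Subgroup G) ∧ x ≠ 1}) ⊆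
          ConjClasses.mk '' {x | x ∈ A ∧ x ≠ 1} := by
        rw [Set.insert_subset_iff]
        refine ⟨⟨x, ⟨hxA, fun h => hx (h ▸ one_mem _)⟩, rfl⟩, ?_⟩
        exact Set.image_mono (fun y hy => ⟨hle hy.1, hy.2⟩)
      have hnot : ConjClasses.mk x ∉
          ConjClasses.mk '' {x | x ∈ (⁅A, K⁆ : Subgroup G) ∧ x ≠ 1} := by
        rintro ⟨y, ⟨hy, _⟩, hyx⟩
        rw [ConjClasses.mk_eq_mk_iff_isConj, isConj_iff] at hyx
        obtain ⟨g, hg⟩ := hyx
        apply hx
        rw [← hg]
        exact Normal.conj_mem inferInstance y hy g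
      have h2 := Set.ncard_le_ncard hsub (Set.toFinite _)
      rw [Set.ncard_insert_of_notMem hnot (Set.toFinite _)] at h2
      omega
    have h2 := ih (by omega) ⁅A, K⁆ inferInstance (hle.trans hAK) h1
    have h3 := layer K A M (hn.trans hnM)
    calc Nat.card A ≤ (M + 1) * K.index * Nat.card (⁅A, K⁆ : Subgroup G) := h3
      _ ≤ (M + 1) * K.index * ((M + 1) * K.index) ^ n := Nat.mul_le_mul_left _ h2
      _ = ((M + 1) * K.index) ^ (n + 1) := by ring

end Pool.Agent.Helper11Z
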