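import Pool.Agent.Helper11Z.Rel
import Pool.Agent.Helper11Z.Cnt

/-!
# Bounding a subgroup of class two
-/

set_option autoImplicit false
open CategoryTheory

namespace Pool.Agent.Helper11Z

open Subgroup commutatorElement

variable {G : Type} [Group G]

/-- The pairing `x, y ↦ μ [x, y]`. -/
def bil (A D : Subgroup G) (hDD : ∀ x ∈ D, ∀ y ∈ D, x⁻¹ * y⁻¹ * x * y ∈ A)
    (hc : ∀ x ∈ D, ∀ a ∈ A, a * x = x * a) (μ : A →* ℂˣ) : D →* (D →* ℂˣ) where
  toFun x :=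
    { toFun := fun y => μ ⟨(x : G)⁻¹ * (y : G)⁻¹ * x * y, hDD x x.2 y y.2⟩
      map_one' := by
        have : (⟨(x : G)⁻¹ * ((1 : D) : G)⁻¹ * x * (1 : D), hDD x x.2 (1 : D) (1 : D).2⟩ : A) = 1 := by
          apply Subtype.ext
          simp
        rw [this, map_one]
      map_mul' := fun y z => by
        rw [← map_mul]
        congr 1
        apply Subtype.ext
        change (x : G)⁻¹ * ((y : G) * z)⁻¹ * x * (y * z) =
          ((x : G)⁻¹ * (y : G)⁻¹ * x * y) * ((x : G)⁻¹ * (z : G)⁻¹ * x * z)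
        have h2 : (x : G)⁻¹ * ((y : G) * z)⁻¹ * x * (y * z) =
          ((x : G)⁻¹ * (z : G)⁻¹ * x) * (((x : G)⁻¹ * (y : G)⁻¹ * x * y) * z) := by group
        have h3 : ((x : G)⁻¹ * (y : G)⁻¹ * x * y) * ((x : G)⁻¹ * (z : G)⁻¹ * x * z) =
          (((x : G)⁻¹ * (y : G)⁻¹ * x * y) * ((x : G)⁻¹ * (z : G)⁻¹ * x)) * z := by group
        have h4 : (x : G)⁻¹ * (z : G)⁻¹ * x ∈ D :=
          D.mul_mem (D.mul_mem (D.inv_mem x.2) (D.inv_mem z.2)) x.2
        rw [h2, h3, hc _ h4 _ (hDD x x.2 y y.2)]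
        exact (mul_assoc _ _ _).symm }
  map_one' := by
    ext y
    change ((μ ⟨((1 : D) : G)⁻¹ * (y : G)⁻¹ * (1 : D) * y, hDD (1 : D) (1 : D).2 y y.2⟩ : ℂˣ) : ℂ) = 1
    have : (⟨((1 : D) : G)⁻¹ * (y : G)⁻¹ * (1 : D) * y, hDD (1 : D) (1 : D).2 y y.2⟩ : A) = 1 := by
      apply Subtype.ext
      simp
    rw [this, map_one]
    rfl
  map_mul' x z := by
    ext y
    change ((μ ⟨((x : G) * z)⁻¹ * (y : G)⁻¹ * (x * z) * y, hDD (x * z : D) (x * z).2 y y.2⟩ : ℂˣ) : ℂ) =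
      ((μ ⟨(x : G)⁻¹ * (y : G)⁻¹ * x * y, hDD x x.2 y y.2⟩ : ℂˣ) : ℂ) *
      ((μ ⟨(z : G)⁻¹ * (y : G)⁻¹ * z * y, hDD z z.2 y y.2⟩ : ℂˣ) : ℂ)
    rw [← Units.val_mul, ← map_mul]
    congr 3
    change ((x : G) * z)⁻¹ * (y : G)⁻¹ * (x * z) * y =
      ((x : G)⁻¹ * (y : G)⁻¹ * x * y) * ((z : G)⁻¹ * (y : G)⁻¹ * z * y)
    have h1 := hc z⁻¹ (D.inv_mem z.2) _ (hDD x x.2 y y.2)
    have h2 : ((x : G)⁻¹ * (y : G)⁻¹ * x * y) * ((z : G)⁻¹ * (y : G)⁻¹ * z * y) =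
      (((x : G)⁻¹ * (y : G)⁻¹ * x * y) * (z : G)⁻¹) * ((y : G)⁻¹ * z * y) := by group
    rw [h2, h1]
    group

theorem bil_apply (A D : Subgroup G) (hDD : ∀ x ∈ D, ∀ y ∈ D, x⁻¹ * y⁻¹ * x * y ∈ A)
    (hc : ∀ x ∈ D, ∀ a ∈ A, a * x = x * a) (μ : A →* ℂˣ) (x y : D) :
    bil A D hDD hc μ x y = μ ⟨(x : G)⁻¹ * (y : G)⁻¹ * x * y, hDD x x.2 y y.2⟩ := rfl


/-- Conjugating the kernel of the pairing. -/
theorem bil_act (A D : Subgroup G) [A.Normal] [D.Normal]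
    (hDD : ∀ x ∈ D, ∀ y ∈ D, x⁻¹ * y⁻¹ * x * y ∈ A)
    (hc : ∀ x ∈ D, ∀ a ∈ A, a * x = x * a) (μ : A →* ℂˣ) (g : G) (x y : D) :
    bil A D hDD hc (act A g μ) x y =
      bil A D hDD hc μ ((MulAut.conjNormal g⁻¹ : MulAut D) x)
        ((MulAut.conjNormal g⁻¹ : MulAut D) y) := by
  rw [bil_apply, bil_apply, act_apply]
  congr 1
  apply Subtype.ext
  simp only [MulAut.conjNormal_apply]
  group

theorem mem_ker_act (A D : Subgroup G) [A.Normal] [D.Normal]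
    (hDD : ∀ x ∈ D, ∀ y ∈ D, x⁻¹ * y⁻¹ * x * y ∈ A)
    (hc : ∀ x ∈ D, ∀ a ∈ A, a * x = x * a) (μ : A →* ℂˣ) (g : G) (x : D) :
    x ∈ (bil A D hDD hc (act A g μ)).ker ↔
      (MulAut.conjNormal g⁻¹ : MulAut D) x ∈ (bil A D hDD hc μ).ker := by
  rw [MonoidHom.mem_ker, MonoidHom.mem_ker]
  constructor
  · intro h
    apply MonoidHom.ext
    intro y
    obtain ⟨y', rfl⟩ := (MulAut.conjNormal g⁻¹ : MulAut D).surjective y
    rw [← bil_act, h]
    rfl
  · intro h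
    apply MonoidHom.ext
    intro y
    rw [bil_act, h]
    rfl

theorem card_ker_act [Finite G] (A D : Subgroup G) [A.Normal] [D.Normal]
    (hDD : ∀ x ∈ D, ∀ y ∈ D, x⁻¹ * y⁻¹ * x * y ∈ A)
    (hc : ∀ x ∈ D, ∀ a ∈ A, a * x = x * a) (μ : A →* ℂˣ) (g : G) :
    Nat.card (bil A D hDD hc (act A g μ)).ker ≤ Nat.card (bil A D hDD hc μ).ker := by
  apply Nat.card_le_card_of_injective
    (fun x : (bil A D hDD hc (act A g μ)).ker =>
      (⟨(MulAut.conjNormal g⁻¹ : MulAut D) x, (mem_ker_act A D hDD hc μ g x).1 x.2⟩ :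
        (bil A D hDD hc μ).ker))
  intro x y hxy
  apply Subtype.ext
  exact (MulAut.conjNormal g⁻¹ : MulAut D).injective (congrArg Subtype.val hxy)

theorem card_mulAut_le [Finite G] (A : Subgroup G) :
    Nat.card (MulAut A) ≤ Nat.card A ^ Nat.card A := by
  classical
  have h1 : Nat.card (A → A) = Nat.card A ^ Nat.card A := Nat.card_fun
  rw [← h1]
  exact Nat.card_le_card_of_injective (fun φ : MulAut A => (φ : A → A)) (fun φ ψ h => by
    ext x
    exact congrArg Subtype.val (congrFun h x))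

/-- The number of conjugates of a linear character of `A`. -/
theorem ncard_act [Finite G] (A : Subgroup G) [A.Normal] (μ : A →* ℂˣ) :
    (Set.range fun g : G => act A g μ).ncard ≤ Nat.card A ^ Nat.card A := by
  have h1 : (Set.range fun g : G => act A g μ) ⊆
      (fun φ : MulAut A => μ.comp φ.toMonoidHom) '' Set.univ := by
    rintro _ ⟨g, rfl⟩
    exact ⟨MulAut.conjNormal g⁻¹, trivial, rfl⟩
  refine (Set.ncard_le_ncard h1 (Set.toFinite _)).trans ?_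
  refine (Set.ncard_image_le (Set.toFinite _)).trans ?_
  rw [Set.ncard_univ]
  exact card_mulAut_le A

/-- The union of the conjugate kernels is small. -/
theorem cover [Finite G] (A D : Subgroup G) [A.Normal] [D.Normal]
    (hDD : ∀ x ∈ D, ∀ y ∈ D, x⁻¹ * y⁻¹ * x * y ∈ A)
    (hc : ∀ x ∈ D, ∀ a ∈ A, a * x = x * a) (μ : A →* ℂˣ) :
    {x : D | ∃ g : G, x ∈ (bil A D hDD hc (act A g μ)).ker}.ncard ≤
      Nat.card A ^ Nat.card A * Nat.card (bil A D hDD hc μ).ker := by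
  classical
  have := Fintype.ofFinite D
  have hfin : (Set.range fun g : G => act A g μ).Finite := Set.finite_range _
  let R : Finset (A →* ℂˣ) := hfin.toFinset
  have hsub : {x : D | ∃ g : G, x ∈ (bil A D hDD hc (act A g μ)).ker} ⊆
      ((R.biUnion fun ν => Finset.univ.filter fun x : D => x ∈ (bil A D hDD hc ν).ker :
        Finset D) : Set D) := by
    rintro x ⟨g, hg⟩
    rw [Finset.mem_coe, Finset.mem_biUnion]
    refine ⟨act A g μ, ?_, ?_⟩
    · rw [Set.Finite.mem_toFinset]; exact ⟨g, rfl⟩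
    · exact Finset.mem_filter.2 ⟨Finset.mem_univ _, hg⟩
  refine (Set.ncard_le_ncard hsub (Set.toFinite _)).trans ?_
  rw [Set.ncard_coe_finset]
  refine (Finset.card_biUnion_le_card_mul R _ (Nat.card (bil A D hDD hc μ).ker) ?_).trans ?_
  · intro ν hν
    rw [Set.Finite.mem_toFinset] at hν
    obtain ⟨g, rfl⟩ := hν
    refine le_trans (le_of_eq ?_) (card_ker_act A D hDD hc μ g)
    rw [← Set.ncard_coe_finset, ← Nat.card_coe_set_eq]
    congr 1
    simp only [Finset.coe_filter, Finset.mem_univ, true_and]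
    rfl
  · apply Nat.mul_le_mul_right
    rw [← Set.ncard_coe_finset, Set.Finite.coe_toFinset]
    exact ncard_act A μ

/-- Vanishing off the union of the conjugate kernels. -/
theorem bil_vanish [Finite G] (A D : Subgroup G) [A.Normal] [D.Normal]
    (hDD : ∀ x ∈ D, ∀ y ∈ D, x⁻¹ * y⁻¹ * x * y ∈ A)
    (hc : ∀ x ∈ D, ∀ a ∈ A, a * x = x * a) (μ : A →* ℂˣ) :
    ∃ V : FDRep ℂ G, Simple V ∧ ∀ x : D, (∀ g : G, x ∉ (bil A D hDD hc (act A g μ)).ker) →
      V.character (x : G) = 0 := by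
  classical
  have := Fintype.ofFinite D
  obtain ⟨V, hV, w, hw, hwμ⟩ := exists_over A μ
  refine ⟨V, hV, fun x hx => ?_⟩
  let m : G → ℂ := fun z => if h : z ∈ A then (μ ⟨z, h⟩ : ℂ) else 0
  have hm : ∀ (z : G) (hz : z ∈ A), m z = μ ⟨z, hz⟩ := fun z hz => dif_pos hz
  refine vanish V hV A inferInstance m w hw (fun a ha => ?_) D (x : G)
    (fun y hy => hDD x x.2 y hy) (fun g => ?_)
  · rw [hm a ha]; exact hwμ ⟨a, ha⟩
  · have hψ : bil A D hDD hc (act A g μ) x ≠ 1 := fun h => hx g (MonoidHom.mem_ker.2 h)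
    have h0 : ∑ y : D, ((Units.coeHom ℂ).comp (bil A D hDD hc (act A g μ) x)) y = 0 := by
      apply sum_hom_units_eq_zero
      intro h
      apply hψ
      ext y
      have := congrArg (fun f : D →* ℂ => f y) h
      exact this
    rw [← h0]
    apply Finset.sum_congr rfl
    intro y _
    change m (g⁻¹ * ((x : G)⁻¹ * (y : G)⁻¹ * x * y) * g) =
      ((bil A D hDD hc (act A g μ) x y : ℂˣ) : ℂ)
    rw [bil_apply, act_apply]
    have h1 : g⁻¹ * ((x : G)⁻¹ * (y : G)⁻¹ * x * y) * g ∈ A := by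
      have := Normal.conj_mem (inferInstance : A.Normal) _ (hDD x x.2 y y.2) g⁻¹
      rwa [inv_inv] at this
    have e : (⟨g⁻¹ * ((x : G)⁻¹ * (y : G)⁻¹ * x * y) * g, h1⟩ : A) =
        (MulAut.conjNormal g⁻¹ : MulAut A)
          ⟨(x : G)⁻¹ * (y : G)⁻¹ * x * y, hDD x x.2 y y.2⟩ := by
      apply Subtype.ext
      rw [MulAut.conjNormal_apply, inv_inv]
    rw [hm _ h1, e]

end Pool.Agent.Helper11Z
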