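import Pool.Agent.Helper11Z.Bil

/-!
# Bounding a subgroup of class two
-/

set_option autoImplicit false
open CategoryTheory

namespace Pool.Agent.Helper11Z

open Subgroup commutatorElement

variable {G : Type} [Group G]

theorem pow_self_mono {a b : ℕ} (ha : 1 ≤ a) (h : a ≤ b) : a ^ a ≤ b ^ b :=
  (Nat.pow_le_pow_left h a).trans (Nat.pow_le_pow_right (ha.trans h) h)

theorem card_D [Finite G] (K A D : Subgroup G) [A.Normal] [D.Normal]
    (hDD : ∀ x ∈ D, ∀ y ∈ D, x⁻¹ * y⁻¹ * x * y ∈ A)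
    (hc : ∀ x ∈ D, ∀ a ∈ A, a * x = x * a) (hAab : ⁅A, A⁆ = ⊥)
    (hKD : ∀ k ∈ K, ∀ x ∈ D, k * x * k⁻¹ * x⁻¹ ∈ A)
    (hZ : ∀ x ∈ D, (∀ y ∈ D, x⁻¹ * y⁻¹ * x * y = 1) → x ∈ A)
    (M a : ℕ) (hM : ∀ V : FDRep ℂ G, Simple V → zs V.character ≤ M) (ha : Nat.card A ≤ a) :
    Nat.card D ≤ 2 * (M * (K.index * a)) + a * (2 * a ^ a) ^ a := by
  classical
  have hα : 1 ≤ Nat.card A := Nat.card_pos
  by_cases h : ∃ μ : A →* ℂˣ, 2 * a ^ a ≤ (bil A D hDD hc μ).ker.index
  · obtain ⟨μ, hμ⟩ := h
    refine le_trans ?_ (Nat.le_add_right _ _)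
    obtain ⟨V, hV, hVx⟩ := bil_vanish A D hDD hc μ
    set S : Set D := {x : D | ∀ g : G, x ∉ (bil A D hDD hc (act A g μ)).ker} with hS
    have hSc : Sᶜ = {x : D | ∃ g : G, x ∈ (bil A D hDD hc (act A g μ)).ker} := by
      ext x
      simp only [hS, Set.mem_compl_iff, Set.mem_ofPred_eq, not_forall, not_not]
    have h1 : S.ncard + Sᶜ.ncard = Nat.card D := Set.ncard_add_ncard_compl S (Set.toFinite _)
    have h2 : Sᶜ.ncard ≤ Nat.card A ^ Nat.card A * Nat.card (bil A D hDD hc μ).ker := by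
      rw [hSc]; exact cover A D hDD hc μ
    have h3 : Nat.card (bil A D hDD hc μ).ker * (bil A D hDD hc μ).ker.index = Nat.card D :=
      Subgroup.card_mul_index _
    have h4 : Nat.card A ^ Nat.card A ≤ a ^ a := pow_self_mono hα ha
    have h5 : 2 * Sᶜ.ncard ≤ Nat.card D := by
      calc 2 * Sᶜ.ncard ≤ 2 * (a ^ a * Nat.card (bil A D hDD hc μ).ker) :=
            Nat.mul_le_mul_left _ (h2.trans (Nat.mul_le_mul_right _ h4))
        _ = Nat.card (bil A D hDD hc μ).ker * (2 * a ^ a) := by ring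
        _ ≤ Nat.card (bil A D hDD hc μ).ker * (bil A D hDD hc μ).ker.index :=
            Nat.mul_le_mul_left _ hμ
        _ = Nat.card D := h3
    have h6 : S.ncard ≤ M * (K.index * a) := by
      rw [← Set.ncard_image_of_injective S (Subtype.val_injective (p := fun x => x ∈ D))]
      apply card_le_of_classes
      · refine (ncard_le_zs V _ ?_).trans (hM V hV)
        rintro _ ⟨x, hx, rfl⟩
        exact hVx x hx
      · rintro _ ⟨x, hx, rfl⟩
        have h7 := class_ncard_le K (x : G) ((fun z => z * (x : G)) '' (A : Set G)) (by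
          intro k hk
          refine ⟨k * x * k⁻¹ * (x : G)⁻¹, hKD k hk x x.2, ?_⟩
          simp)
        refine h7.trans (Nat.mul_le_mul_left _ ?_)
        refine (Set.ncard_image_le (Set.toFinite _)).trans ?_
        rw [← Nat.card_coe_set_eq]
        exact ha
    omega
  · push Not at h
    refine le_trans ?_ (Nat.le_add_left _ _)
    have hex : ∀ z : A, ∃ μ : A →* ℂˣ, z ≠ 1 → μ z ≠ 1 := by
      intro z
      by_cases hz : z = 1
      · exact ⟨1, fun h => absurd hz h⟩
      · obtain ⟨μ, hμ⟩ := exists_lin_ne A z (by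
          rw [hAab, Subgroup.mem_bot]
          intro h
          exact hz (Subtype.ext h))
        exact ⟨μ, fun _ => hμ⟩
    choose μ hμ using hex
    have := Fintype.ofFinite A
    set J : Subgroup D := ⨅ z : A, (bil A D hDD hc (μ z)).ker with hJ
    have hpos : 1 ≤ 2 * a ^ a := by
      have : 1 ≤ a := hα.trans ha
      have := Nat.one_le_pow a a this
      omega
    have hi : J.index ≤ (2 * a ^ a) ^ a := by
      refine (Subgroup.index_iInf_le _).trans ?_
      refine (Finset.prod_le_prod' (fun z _ => (h (μ z)).le)).trans ?_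
      rw [Finset.prod_const, Finset.card_univ, ← Nat.card_eq_fintype_card]
      exact Nat.pow_le_pow_right hpos ha
    have hJA : ∀ x : J, (((x : D) : G)) ∈ A := by
      intro x
      apply hZ _ (x : D).2
      intro y hy
      by_contra hne
      have h1 : ((x : D) : G)⁻¹ * y⁻¹ * (x : D) * y ∈ A := hDD _ (x : D).2 y hy
      have h2 : (x : D) ∈ (bil A D hDD hc (μ ⟨_, h1⟩)).ker := (Subgroup.mem_iInf.1 x.2) ⟨_, h1⟩
      rw [MonoidHom.mem_ker] at h2
      have h3 := bil_apply A D hDD hc (μ ⟨_, h1⟩) x ⟨y, hy⟩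
      rw [h2] at h3
      exact hμ ⟨_, h1⟩ (fun h => hne (congrArg Subtype.val h)) h3.symm
    have hJc : Nat.card J ≤ a := by
      refine le_trans (Nat.card_le_card_of_injective
        (fun x : J => (⟨((x : D) : G), hJA x⟩ : A)) ?_) ha
      intro x y hxy
      apply Subtype.ext
      apply Subtype.ext
      exact congrArg (fun z : A => (z : G)) hxy
    have h3 : Nat.card J * J.index = Nat.card D := Subgroup.card_mul_index _
    rw [← h3]
    exact Nat.mul_le_mul hJc hi

end Pool.Agent.Helper11Z
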