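import Pool.Agent.Helper11Z.CardD

/-!
# Bounding a nilpotent normal subgroup by its index
-/

set_option autoImplicit false
open CategoryTheory

namespace Pool.Agent.Helper11Z

open Subgroup commutatorElement

variable {G : Type} [Group G]

/-- The bound for abelian normal subgroups. -/
def bdA (M B : ℕ) : ℕ := ((M + 1) * B) ^ M

/-- The bound for the class two subgroup. -/
def bdD (M B : ℕ) : ℕ := 2 * (M * (B * bdA M B)) + bdA M B * (2 * bdA M B ^ bdA M B) ^ bdA M B

/-- The bound for the nilpotent subgroup. -/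
def bdK (M B : ℕ) : ℕ := bdA M B * bdD M B ^ bdD M B

theorem card_le_conj [Finite G] (K D A : Subgroup G) [D.Normal]
    (h : ∀ k ∈ K, (∀ x ∈ D, k * x = x * k) → k ∈ A) :
    Nat.card K ≤ Nat.card A * Nat.card D ^ Nat.card D := by
  let f : K →* MulAut D := MulAut.conjNormal.comp K.subtype
  have h1 : Nat.card f.ker * f.ker.index = Nat.card K := f.ker.card_mul_index
  have h2 : f.ker.index = Nat.card f.range := Subgroup.index_ker f
  have h3 : Nat.card f.range ≤ Nat.card D ^ Nat.card D :=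
    (Nat.card_le_card_of_injective _ (Subtype.val_injective (p := fun x => x ∈ f.range))).trans
      (card_mulAut_le D)
  have hk : ∀ x : f.ker, ((x : K) : G) ∈ A := by
    intro k
    apply h _ (k : K).2
    intro x hx
    have h4 : f (k : K) = 1 := k.2
    have h5 : (f (k : K)) ⟨x, hx⟩ = ⟨x, hx⟩ := by rw [h4]; rfl
    have h6 := congrArg Subtype.val h5
    change ((MulAut.conjNormal ((k : K) : G) (⟨x, hx⟩ : D) : D) : G) = x at h6
    rw [MulAut.conjNormal_apply] at h6
    exact mul_inv_eq_iff_eq_mul.1 h6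
  have h4 : Nat.card f.ker ≤ Nat.card A := by
    apply Nat.card_le_card_of_injective (fun x : f.ker => (⟨((x : K) : G), hk x⟩ : A))
    intro x y hxy
    apply Subtype.ext
    apply Subtype.ext
    exact congrArg (fun z : A => (z : G)) hxy
  rw [← h1, h2]
  exact Nat.mul_le_mul h4 h3

theorem card_K [Finite G] (K : Subgroup G) [K.Normal] (hK : ∃ n, K.lowerCentralSeries n = ⊥)
    (M : ℕ) (hM : ∀ V : FDRep ℂ G, Simple V → zs V.character ≤ M)
    (hab : ∀ A : Subgroup G, A.Normal → ⁅A, A⁆ = ⊥ →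
      (ConjClasses.mk '' {x | x ∈ A ∧ x ≠ 1}).ncard ≤ M) :
    Nat.card K ≤ bdK M K.index := by
  classical
  have hbd : ∀ A : Subgroup G, A.Normal → A ≤ K → ⁅A, A⁆ = ⊥ → Nat.card A ≤ bdA M K.index :=
    fun A hA hAK hA0 => ab_bound K hK M M le_rfl A hA hAK (hab A hA hA0)
  -- a maximal abelian normal subgroup
  obtain ⟨A, ⟨hAn, hAK, hA0⟩, hAmax⟩ : ∃ A : Subgroup G, (A.Normal ∧ A ≤ K ∧ ⁅A, A⁆ = ⊥) ∧
      ∀ Z : Subgroup G, Z.Normal → Z ≤ K → ⁅Z, Z⁆ = ⊥ → A ≤ Z → Z ≤ A := by
    have h1 : {A : Subgroup G | A.Normal ∧ A ≤ K ∧ ⁅A, A⁆ = ⊥}.Nonempty :=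
      ⟨⊥, inferInstance, bot_le, by simp⟩
    obtain ⟨A, hA⟩ := Set.Finite.exists_maximal (Set.toFinite _) h1
    exact ⟨A, hA.1, fun Z hZ1 hZ2 hZ3 hZ4 => hA.2 ⟨hZ1, hZ2, hZ3⟩ hZ4⟩
  set D : Subgroup G := K ⊓ centralizer (A : Set G) ⊓ cen K A with hD
  have hcn : (centralizer (A : Set G)).Normal := inferInstance
  have hDn : D.Normal := by
    have h1 : (K ⊓ centralizer (A : Set G)).Normal := Subgroup.normal_inf_normal _ _
    exact Subgroup.normal_inf_normal _ _
  have hDK : D ≤ K := inf_le_left.trans inf_le_left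
  have hDA : D ≤ centralizer (A : Set G) := inf_le_left.trans inf_le_right
  have hDc : D ≤ cen K A := inf_le_right
  have hAA : A ≤ centralizer (A : Set G) := Subgroup.commutator_eq_bot_iff_le_centralizer.1 hA0
  have hAD : A ≤ D := by
    refine le_inf (le_inf hAK hAA) ?_
    intro x hx
    rw [mem_cen]
    intro k _
    exact commutator_le_left A ⊤ (commutator_mem_commutator hx (mem_top k))
  -- the centre of `D`
  set Z : Subgroup G := D ⊓ centralizer (D : Set G) with hZ
  have hZn : Z.Normal := Subgroup.normal_inf_normal _ _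
  have hZA : Z ≤ A := by
    apply hAmax Z hZn (inf_le_left.trans hDK)
    · rw [Subgroup.commutator_eq_bot_iff_le_centralizer]
      exact inf_le_right.trans (Subgroup.centralizer_le (inf_le_left : Z ≤ D))
    · exact le_inf hAD (Subgroup.le_centralizer_iff.1 hDA)
  -- the centraliser of `D` in `K`
  set E : Subgroup G := K ⊓ centralizer (D : Set G) with hE
  have hEn : E.Normal := Subgroup.normal_inf_normal _ _
  have hEA : E ≤ A := by
    by_contra hne
    have h1 : ∀ i, Pool.Agent.H648R4.it K E i ≤ K.lowerCentralSeries i := by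
      intro i
      induction i with
      | zero => exact inf_le_left
      | succ i ih => exact commutator_mono ih le_rfl
    have h2 : ∃ i, Pool.Agent.H648R4.it K E i ≤ A := by
      obtain ⟨n, hn⟩ := hK
      exact ⟨n, (h1 n).trans (hn ▸ bot_le)⟩
    have h0 : Nat.find h2 ≠ 0 := by
      intro h
      have h3 := Nat.find_spec h2
      rw [h] at h3
      exact hne h3
    obtain ⟨k, hk⟩ := Nat.exists_eq_succ_of_ne_zero h0
    have h3 := Nat.find_spec h2
    rw [hk] at h3
    have h4 : ¬ Pool.Agent.H648R4.it K E k ≤ A := by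
      intro h
      have := Nat.find_min' h2 h
      omega
    obtain ⟨e, he, heA⟩ := SetLike.not_le_iff_exists.1 h4
    have heE : e ∈ E := Pool.Agent.H648R4.it_le K E k he
    apply heA
    apply hZA
    refine ⟨⟨⟨heE.1, ?_⟩, ?_⟩, heE.2⟩
    · exact Subgroup.centralizer_le hAD heE.2
    · refine mem_cen.2 (fun x hx => h3 ?_)
      exact commutator_mem_commutator he hx
  have hcardA : Nat.card A ≤ bdA M K.index := hbd A hAn hAK hA0
  have hcardD : Nat.card D ≤ bdD M K.index := by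
    refine card_D K A D ?_ ?_ hA0 ?_ ?_ M _ hM hcardA
    · intro x hx y hy
      have h1 := mem_cen.1 (hDc (D.inv_mem hx)) y⁻¹ (K.inv_mem (hDK hy))
      rwa [commutatorElement_def, inv_inv, inv_inv] at h1
    · intro x hx a ha
      exact Subgroup.mem_centralizer_iff.1 (hDA hx) a ha
    · intro k hk x hx
      have h1 := mem_cen.1 (hDc hx) k hk
      have h2 := A.inv_mem h1
      rwa [commutatorElement_inv] at h2
    · intro x hx hxy
      apply hZA
      refine ⟨hx, ?_⟩
      refine Subgroup.mem_centralizer_iff.2 (fun y hy => ?_)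
      have h1 := hxy y hy
      have h2 : x * y = y * x * (x⁻¹ * y⁻¹ * x * y) := by group
      rw [h1, mul_one] at h2
      exact h2.symm
  have hK1 : Nat.card K ≤ Nat.card A * Nat.card D ^ Nat.card D := by
    apply card_le_conj K D A
    intro k hk h
    apply hEA
    exact ⟨hk, Subgroup.mem_centralizer_iff.2 (fun y hy => (h y hy).symm)⟩
  exact hK1.trans (Nat.mul_le_mul hcardA (pow_self_mono Nat.card_pos hcardD))

theorem bdA_mono (M : ℕ) {B B' : ℕ} (h : B ≤ B') : bdA M B ≤ bdA M B' :=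
  Nat.pow_le_pow_left (Nat.mul_le_mul_left _ h) _

theorem bdA_pos (M : ℕ) {B : ℕ} (h : 1 ≤ B) : 1 ≤ bdA M B :=
  Nat.one_le_pow _ _ (Nat.mul_pos (by omega) h)

theorem bdD_mono (M : ℕ) {B B' : ℕ} (hB : 1 ≤ B) (h : B ≤ B') : bdD M B ≤ bdD M B' := by
  have h1 := bdA_mono M h
  have h2 := bdA_pos M hB
  have h3 : bdA M B ^ bdA M B ≤ bdA M B' ^ bdA M B' := pow_self_mono h2 h1
  have h4 : 1 ≤ 2 * bdA M B' ^ bdA M B' := by
    have := Nat.one_le_pow (bdA M B') (bdA M B') (h2.trans h1)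
    omega
  have h5 : (2 * bdA M B ^ bdA M B) ^ bdA M B ≤ (2 * bdA M B' ^ bdA M B') ^ bdA M B' :=
    (Nat.pow_le_pow_left (Nat.mul_le_mul_left _ h3) _).trans (Nat.pow_le_pow_right h4 h1)
  unfold bdD
  exact Nat.add_le_add (Nat.mul_le_mul_left _ (Nat.mul_le_mul_left _ (Nat.mul_le_mul h h1)))
    (Nat.mul_le_mul h1 h5)

theorem bdD_pos (M : ℕ) {B : ℕ} (h : 1 ≤ B) : 1 ≤ bdD M B := by
  have h1 := bdA_pos M h
  have h2 := Nat.one_le_pow (bdA M B) (bdA M B) h1
  have h3 : 1 ≤ bdA M B * (2 * bdA M B ^ bdA M B) ^ bdA M B :=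
    Nat.mul_pos h1 (Nat.one_le_pow _ _ (by omega))
  unfold bdD
  omega

theorem bdK_mono (M : ℕ) {B B' : ℕ} (hB : 1 ≤ B) (h : B ≤ B') : bdK M B ≤ bdK M B' :=
  Nat.mul_le_mul (bdA_mono M h) (pow_self_mono (bdD_pos M hB) (bdD_mono M hB h))

end Pool.Agent.Helper11Z
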