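import Pool.Agent.W367.SN.Irr

/-!
# Vanishing of irreducible characters: basic lemmas
-/

set_option autoImplicit false
open CategoryTheory

namespace Pool.Agent.Helper11Z
open Pool.Agent.W367.SN Pool.Agent.Helper199.RepDim

/-- Inflation of a simple representation along a surjection. -/
theorem inflate {G Q : Type} [Group G] [Finite G] [Group Q] (f : G →* Q)
    (hf : Function.Surjective f) (V : FDRep ℂ Q) (hV : Simple V) :
    ∃ W : FDRep ℂ G, Simple W ∧ ∀ g, W.character g = V.character (f g) := by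
  obtain ⟨v, hv⟩ := simple_nonzero V
  have hnt : Nontrivial V := ⟨⟨v, 0, hv⟩⟩
  let ρ : Representation ℂ G V := V.ρ.comp f
  refine ⟨FDRep.of ρ, ?_, fun g => rfl⟩
  apply simple_of_irred
  intro W hW
  by_cases h0 : W = ⊥
  · exact Or.inl h0
  · right
    apply simple_top V W _ h0
    intro q w hw
    obtain ⟨g, rfl⟩ := hf q
    exact hW g w hw

/-- In a simple representation the translates of a nonzero vector span. -/
theorem span_top {G : Type} [Group G] (V : FDRep ℂ G) (hV : Simple V) (w : V) (hw : w ≠ 0) :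
    Submodule.span ℂ (Set.range fun g : G => V.ρ g w) = ⊤ := by
  apply simple_top V
  · intro g v hv
    induction hv using Submodule.span_induction with
    | mem x hx =>
      obtain ⟨h, rfl⟩ := hx
      apply Submodule.subset_span
      exact ⟨g * h, by simp only [map_mul, Module.End.mul_apply]⟩
    | zero => simp
    | add x y _ _ hx hy => rw [map_add]; exact Submodule.add_mem _ hx hy
    | smul c x _ hx => rw [map_smul]; exact Submodule.smul_mem _ c hx
  · intro h
    apply hw
    have : w ∈ Submodule.span ℂ (Set.range fun g : G => V.ρ g w) := by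
      apply Submodule.subset_span
      exact ⟨1, by simp⟩
    rw [h] at this
    exact this

/-- The main vanishing lemma. -/
theorem vanish {G : Type} [Group G] [Finite G] (V : FDRep ℂ G) (hV : Simple V) (A : Subgroup G)
    (hA : A.Normal) (m : G → ℂ) (w : V) (hw : w ≠ 0) (hm : ∀ a ∈ A, V.ρ a w = m a • w)
    (D : Subgroup G) [Fintype D] (x : G)
    (hx : ∀ y ∈ D, x⁻¹ * y⁻¹ * x * y ∈ A)
    (hs : ∀ g : G, ∑ y : D, m (g⁻¹ * (x⁻¹ * (y : G)⁻¹ * x * y) * g) = 0) :
    V.character x = 0 := by
  classical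
  let S : V →ₗ[ℂ] V := ∑ y : D, V.ρ (x⁻¹ * (y : G)⁻¹ * x * y)
  have hS : S = 0 := by
    apply LinearMap.ext
    intro v
    have hv : v ∈ Submodule.span ℂ (Set.range fun g : G => V.ρ g w) := by
      rw [span_top V hV w hw]; trivial
    induction hv using Submodule.span_induction with
    | mem u hu =>
      obtain ⟨g, rfl⟩ := hu
      have h1 : ∀ y : D, V.ρ (x⁻¹ * (y : G)⁻¹ * x * y) (V.ρ g w) =
          m (g⁻¹ * (x⁻¹ * (y : G)⁻¹ * x * y) * g) • V.ρ g w := by
        intro y
        have h2 : V.ρ (g⁻¹ * (x⁻¹ * (y : G)⁻¹ * x * y) * g) w =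
            m (g⁻¹ * (x⁻¹ * (y : G)⁻¹ * x * y) * g) • w := by
          apply hm
          have := hA.conj_mem _ (hx y y.2) g⁻¹
          simpa using this
        rw [← map_smul, ← h2, ← Module.End.mul_apply, ← Module.End.mul_apply, ← map_mul,
          ← map_mul]
        congr 2
        group
      simp only [S, LinearMap.sum_apply, LinearMap.zero_apply]
      rw [Finset.sum_congr rfl (fun y _ => h1 y), ← Finset.sum_smul, hs g, zero_smul]
    | zero => simp
    | add a b _ _ ha hb => rw [map_add, ha, hb]; simp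
    | smul c a _ ha => rw [map_smul, ha]; simp
  have h1 : ∀ y : D, LinearMap.trace ℂ V (V.ρ x * V.ρ (x⁻¹ * (y : G)⁻¹ * x * y)) =
      V.character x := by
    intro y
    rw [← map_mul]
    have : x * (x⁻¹ * (y : G)⁻¹ * x * y) = (y : G)⁻¹ * x * (y : G)⁻¹⁻¹ := by group
    rw [this]
    exact V.char_conj x (y : G)⁻¹
  have h2 : LinearMap.trace ℂ V (V.ρ x * S) = Fintype.card D * V.character x := by
    simp only [S, Finset.mul_sum, map_sum]
    rw [Finset.sum_congr rfl (fun y _ => h1 y)]
    simp
  rw [hS, mul_zero, map_zero] at h2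
  have h3 : (Fintype.card D : ℂ) ≠ 0 := by exact_mod_cast Fintype.card_ne_zero
  exact (mul_eq_zero.1 h2.symm).resolve_left h3

/-- Vanishing on an element all of whose translates by a normal subgroup, not contained in the
kernel, have the same value. -/
theorem vanish_coset {G : Type} [Group G] [Finite G] (V : FDRep ℂ G) (hV : Simple V)
    (R : Subgroup G) (hR : R.Normal) (r₀ : G) (hr₀ : r₀ ∈ R) (hne : V.ρ r₀ ≠ 1) (x : G)
    (hx : ∀ r ∈ R, V.character (x * r) = V.character x) : V.character x = 0 := by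
  classical
  have := Fintype.ofFinite R
  let S : V →ₗ[ℂ] V := ∑ r : R, V.ρ (r : G)
  have hSr : ∀ r ∈ R, V.ρ r * S = S := by
    intro r hr
    simp only [S, Finset.mul_sum, ← map_mul]
    exact Equiv.sum_comp (Equiv.mulLeft (⟨r, hr⟩ : R)) (fun s : R => V.ρ (s : G))
  have hSg : ∀ g v, S (V.ρ g v) = V.ρ g (S v) := by
    intro g v
    simp only [S, LinearMap.sum_apply, map_sum]
    rw [← Equiv.sum_comp (MulAut.conjNormal g : MulAut R).toEquiv]
    apply Finset.sum_congr rfl
    intro r _
    rw [← Module.End.mul_apply, ← Module.End.mul_apply, ← map_mul, ← map_mul]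
    change V.ρ (((MulAut.conjNormal g r : R) : G) * g) v = _
    rw [MulAut.conjNormal_apply]
    congr 2
    group
  have hS : S = 0 := by
    by_contra hS
    have htop : LinearMap.range S = ⊤ := by
      apply simple_top V
      · rintro g _ ⟨v, rfl⟩
        exact ⟨V.ρ g v, hSg g v⟩
      · intro h
        exact hS (LinearMap.range_eq_bot.1 h)
    apply hne
    apply LinearMap.ext
    intro v
    have hv : v ∈ LinearMap.range S := by rw [htop]; trivial
    obtain ⟨u, rfl⟩ := hv
    rw [← Module.End.mul_apply, hSr r₀ hr₀]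
    rfl
  have h2 : LinearMap.trace ℂ V (V.ρ x * S) = Fintype.card R * V.character x := by
    simp only [S, Finset.mul_sum, map_sum, ← map_mul]
    have h1 : ∀ r : R, LinearMap.trace ℂ V (V.ρ (x * r)) = V.character x := fun r => hx r r.2
    rw [Finset.sum_congr rfl (fun y _ => h1 y)]
    simp
  rw [hS, mul_zero, map_zero] at h2
  have h3 : (Fintype.card R : ℂ) ≠ 0 := by exact_mod_cast Fintype.card_ne_zero
  exact (mul_eq_zero.1 h2.symm).resolve_left h3

/-- Existence of a simple representation with a prescribed linear character on a subgroup. -/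
theorem exists_over {G : Type} [Group G] [Finite G] (A : Subgroup G) (μ : A →* ℂˣ) :
    ∃ V : FDRep ℂ G, Simple V ∧ ∃ w : V, w ≠ 0 ∧ ∀ a : A, V.ρ (a : G) w = (μ a : ℂ) • w := by
  classical
  have := Fintype.ofFinite G
  have := Fintype.ofFinite A
  have : NeZero (Nat.card G : ℂ) := ⟨by exact_mod_cast Nat.card_pos.ne'⟩
  let R := MonoidAlgebra ℂ G
  let δ : G →* R := MonoidAlgebra.of ℂ G
  let e : R := ∑ a : A, (μ a⁻¹ : ℂ) • δ (a : G)
  have he0 : e ≠ 0 := by
    intro h
    have h1 : e.coeff 1 = 0 := by rw [h]; rfl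
    have h2 : e.coeff 1 = ∑ a : A, (μ a⁻¹ : ℂ) * (if (a : G) = 1 then 1 else 0) := by
      change (∑ a : A, (μ a⁻¹ : ℂ) • δ (a : G)).coeff 1 = _
      rw [MonoidAlgebra.coeff_sum, Finsupp.finsetSum_apply]
      apply Finset.sum_congr rfl
      intro g _
      rw [MonoidAlgebra.coeff_smul_apply, smul_eq_mul]
      congr 1
      change (MonoidAlgebra.single (g : G) (1 : ℂ)).coeff 1 = _
      rw [MonoidAlgebra.coeff_single, Finsupp.single_apply]
    rw [h1, Finset.sum_eq_single 1] at h2
    · simp at h2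
    · intro b _ hb
      rw [if_neg, mul_zero]
      intro hb'
      exact hb (Subtype.ext hb')
    · intro h; exact absurd (Finset.mem_univ _) h
  have hex : ∃ m : Submodule R R, IsSimpleModule R m ∧ ∃ x ∈ m, e * x ≠ 0 := by
    by_contra hcon
    push Not at hcon
    have h1 : (1 : R) ∈ (⊤ : Submodule R R) := trivial
    rw [← IsSemisimpleModule.sSup_simples_eq_top R R, sSup_eq_iSup'] at h1
    have h2 : e * 1 = 0 := by
      refine Submodule.iSup_induction _ (motive := fun x => e * x = 0) h1 ?_ ?_ ?_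
      · intro i x hx
        exact hcon i.1 i.2 x hx
      · rw [mul_zero]
      · intro x y hx hy; rw [mul_add, hx, hy, add_zero]
    rw [mul_one] at h2
    exact he0 h2
  obtain ⟨m, hm, x, hx, hex⟩ := hex
  obtain ⟨V, hV, φ, hφ, hinj, hφg⟩ := simple_piece m hm
  obtain ⟨v, rfl⟩ := hφ x hx
  let w : V := ∑ a : A, (μ a⁻¹ : ℂ) • V.ρ (a : G) v
  have hw : φ w = e * φ v := by
    have h3 : e * φ v = ∑ a : A, (μ a⁻¹ : ℂ) • (δ (a : G) * φ v) := by
      change (∑ a : A, (μ a⁻¹ : ℂ) • δ (a : G)) * φ v = _
      rw [Finset.sum_mul]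
      exact Finset.sum_congr rfl (fun _ _ => smul_mul_assoc _ _ _)
    rw [h3]
    simp only [w, map_sum, map_smul, hφg]
    rfl
  refine ⟨V, hV, w, ?_, ?_⟩
  · intro h0
    rw [h0, map_zero] at hw
    exact hex hw.symm
  · intro b
    simp only [w, map_sum, map_smul, Finset.smul_sum]
    rw [← Equiv.sum_comp (Equiv.mulLeft b⁻¹)]
    apply Finset.sum_congr rfl
    intro a _
    have e1 : ((Equiv.mulLeft b⁻¹) a) = b⁻¹ * a := rfl
    rw [e1, smul_smul, ← Module.End.mul_apply, ← map_mul]
    congr 1
    · rw [← Units.val_mul, mul_inv_rev, inv_inv, map_mul, mul_comm]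
    · congr 2
      simp

/-- Irreducible characters exist. -/
theorem exists_simple' (G : Type) [Group G] [Finite G] : ∃ V : FDRep ℂ G, Simple V := by
  obtain ⟨V, hV, _⟩ := exists_over (⊥ : Subgroup G) 1
  exact ⟨V, hV⟩

end Pool.Agent.Helper11Z
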