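import Pool.Agent.H648R4.Fit

/-!
# Faithful action of a nilpotent quotient on the coprime part of the abelianised Fitting subgroup
-/

set_option autoImplicit false

namespace Pool.Agent.Helper11Z

open Subgroup commutatorElement

variable {G : Type} [Group G]

theorem commute_mod (Y : Subgroup G) [Y.Normal] {a b : G} (h : ⁅a, b⁆ ∈ Y) :
    Commute (a : G ⧸ Y) (b : G ⧸ Y) := by
  rw [← QuotientGroup.eq_one_iff] at h
  have h1 : ⁅(a : G ⧸ Y), (b : G ⧸ Y)⁆ = 1 := h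
  exact commutatorElement_eq_one_iff_mul_comm.1 h1

theorem comm_mem_of_commute (Y : Subgroup G) [Y.Normal] {a b : G}
    (h : Commute (a : G ⧸ Y) (b : G ⧸ Y)) : ⁅a, b⁆ ∈ Y := by
  rw [← QuotientGroup.eq_one_iff]
  exact commutatorElement_eq_one_iff_mul_comm.2 h

/-- Elements of `X` whose `s`-th power lies in `Y`. -/
def pw (X Y : Subgroup G) [Y.Normal] (hXY : ⁅X, X⁆ ≤ Y) (s : ℕ) : Subgroup G where
  carrier := {x | x ∈ X ∧ x ^ s ∈ Y}
  one_mem' := ⟨X.one_mem, by simp [Y.one_mem]⟩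
  mul_mem' := by
    rintro a b ⟨ha, ha'⟩ ⟨hb, hb'⟩
    refine ⟨X.mul_mem ha hb, ?_⟩
    have hc : Commute (a : G ⧸ Y) (b : G ⧸ Y) :=
      commute_mod Y (hXY (commutator_mem_commutator ha hb))
    rw [← QuotientGroup.eq_one_iff] at ha' hb' ⊢
    rw [QuotientGroup.mk_pow, QuotientGroup.mk_mul, hc.mul_pow, ← QuotientGroup.mk_pow,
      ← QuotientGroup.mk_pow, ha', hb', one_mul]
  inv_mem' := by
    rintro a ⟨ha, ha'⟩
    exact ⟨X.inv_mem ha, by rw [inv_pow]; exact Y.inv_mem ha'⟩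

theorem mem_pw {X Y : Subgroup G} [Y.Normal] {hXY : ⁅X, X⁆ ≤ Y} {s : ℕ} {x : G} :
    x ∈ pw X Y hXY s ↔ x ∈ X ∧ x ^ s ∈ Y := Iff.rfl

instance pw_normal (X Y : Subgroup G) [X.Normal] [Y.Normal] (hXY : ⁅X, X⁆ ≤ Y) (s : ℕ) :
    (pw X Y hXY s).Normal := by
  constructor
  rintro x ⟨hx, hx'⟩ g
  refine ⟨Normal.conj_mem inferInstance x hx g, ?_⟩
  rw [conj_pow]
  exact Normal.conj_mem inferInstance _ hx' g

/-- Elements centralising `X` modulo `Q`. -/
def cen (X Q : Subgroup G) [Q.Normal] : Subgroup G :=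
  (centralizer ((X.map (QuotientGroup.mk' Q) : Subgroup (G ⧸ Q)) : Set (G ⧸ Q))).comap
    (QuotientGroup.mk' Q)

theorem mem_cen {X Q : Subgroup G} [Q.Normal] {c : G} : c ∈ cen X Q ↔ ∀ x ∈ X, ⁅c, x⁆ ∈ Q := by
  rw [cen, mem_comap, mem_centralizer_iff]
  constructor
  · intro h x hx
    apply comm_mem_of_commute
    have := h (x : G ⧸ Q) ⟨x, hx, rfl⟩
    exact this.symm
  · rintro h _ ⟨x, hx, rfl⟩
    exact (commute_mod Q (h x hx)).symm

instance cen_normal (X Q : Subgroup G) [X.Normal] [Q.Normal] : (cen X Q).Normal := by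
  have h1 : (X.map (QuotientGroup.mk' Q)).Normal :=
    Normal.map inferInstance _ (QuotientGroup.mk'_surjective Q)
  exact Normal.comap inferInstance _

/-- The lower central series modulo a normal subgroup. -/
theorem lcs_le_iff (L N : Subgroup G) [N.Normal] (n : ℕ) :
    L.lowerCentralSeries n ≤ N ↔ (L.map (QuotientGroup.mk' N)).lowerCentralSeries n = ⊥ := by
  rw [← Subgroup.map_lowerCentralSeries, Subgroup.map_eq_bot_iff, QuotientGroup.ker_mk']

theorem mem_of_coprime_pow (Y : Subgroup G) (y : G) (r s : ℕ) (h : Nat.Coprime r s)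
    (hr : y ^ r ∈ Y) (hs : y ^ s ∈ Y) : y ∈ Y := by
  have h1 : (y ^ r) ^ (Nat.gcdA r s) * (y ^ s) ^ (Nat.gcdB r s) = y := by
    rw [← zpow_natCast, ← zpow_natCast, ← zpow_mul, ← zpow_mul, ← zpow_add,
      ← Nat.gcd_eq_gcd_ab, h.gcd_eq_one]
    simp
  rw [← h1]
  exact Y.mul_mem (Y.zpow_mem hr _) (Y.zpow_mem hs _)

/-- An element of a normal subgroup `A`, with `A / F` abelian, acting trivially on the coprime part
of the abelianised Fitting subgroup `F` lies in `F`. -/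
theorem faithful [Finite G] (F A : Subgroup G) [F.Normal] [A.Normal] (hFA : F ≤ A)
    (hnil : ∃ n, F.lowerCentralSeries n = ⊥)
    (hmax : ∀ L : Subgroup G, L.Normal → (∃ n, L.lowerCentralSeries n = ⊥) → L ≤ F)
    (hab : ⁅A, A⁆ ≤ F) (a : G) (ha : a ∈ A) (haF : a ∉ F) (q : ℕ) (hq : q.Prime)
    (haq : a ^ q ∈ F) :
    ∃ r s : ℕ, Nat.Coprime q r ∧ (∀ y : G, y ^ (s * r) = 1) ∧
      ∃ x ∈ F, ⁅a, x⁆ ^ s ∉ ⁅F, F⁆ := by
  obtain ⟨k, r, hr, hk⟩ := Nat.exists_eq_pow_mul_and_not_dvd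
    (n := Nat.card G) Nat.card_pos.ne' q hq.ne_one
  have hqr : Nat.Coprime q r := (Nat.Prime.coprime_iff_not_dvd hq).2 hr
  set s : ℕ := q ^ (k + 1) with hs
  have hrs : Nat.Coprime r s := (Nat.Coprime.pow_left (k + 1) hqr).symm
  have hone : ∀ y : G, y ^ (s * r) = 1 := by
    intro y
    have : s * r = Nat.card G * q := by rw [hk, hs]; ring
    rw [this, pow_mul, pow_card_eq_one', one_pow]
  refine ⟨r, s, hqr, hone, ?_⟩
  by_contra hcon
  push Not at hcon
  have hFF : ⁅F, F⁆ ≤ ⁅F, F⁆ := le_rfl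
  let Q : Subgroup G := pw F ⁅F, F⁆ hFF s
  let T : Subgroup G := pw F ⁅F, F⁆ hFF r
  have : Q.Normal := pw_normal _ _ _ _
  have : T.Normal := pw_normal _ _ _ _
  let C : Subgroup G := pw A F hab s ⊓ cen F Q
  have : (pw A F hab s).Normal := pw_normal _ _ _ _
  have : (cen F Q).Normal := cen_normal _ _
  have hCn : C.Normal := Subgroup.normal_inf_normal _ _
  have hFFF : ⁅F, F⁆ ≤ F := commutator_le_left F F
  have hcomm : ∀ c x : G, x ∈ F → ⁅c, x⁆ ∈ F := fun c x hx =>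
    commutator_le_right ⊤ F (commutator_mem_commutator (mem_top c) hx)
  have haC : a ∈ C := by
    refine ⟨⟨ha, ?_⟩, ?_⟩
    · rw [hs, pow_succ', pow_mul]
      exact F.pow_mem haq _
    · refine mem_cen.2 ?_
      intro x hx
      exact ⟨hcomm a x hx, hcon x hx⟩
  have hFC : F ≤ C := by
    intro y hy
    refine ⟨⟨hFA hy, F.pow_mem hy _⟩, ?_⟩
    refine mem_cen.2 ?_
    intro x hx
    exact ⟨hcomm y x hx, pow_mem (commutator_mem_commutator hy hx) _⟩
  have hCT : ∃ n, C.lowerCentralSeries n ≤ T := by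
    have hp : IsPGroup q (C.map (QuotientGroup.mk' T)) := by
      rintro ⟨_, c, hc, rfl⟩
      refine ⟨(k + 1) + (k + 1), ?_⟩
      apply Subtype.ext
      change ((c : G ⧸ T)) ^ (q ^ ((k + 1) + (k + 1))) = 1
      rw [← QuotientGroup.mk_pow, QuotientGroup.eq_one_iff, pow_add, pow_mul]
      refine ⟨F.pow_mem hc.1.2 _, ?_⟩
      rw [← pow_mul, ← hs, hone]
      exact one_mem _
    have : Fact q.Prime := ⟨hq⟩
    have h1 := hp.isNilpotent
    obtain ⟨n, hn⟩ := (isNilpotent_iff_lowerCentralSeries _).1 h1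
    exact ⟨n, (lcs_le_iff C T n).2 hn⟩
  obtain ⟨n, hn⟩ := hCT
  have hC1 : C.lowerCentralSeries (n + 1) ≤ ⁅F, F⁆ := by
    rw [Subgroup.lowerCentralSeries_succ]
    refine (commutator_mono hn le_rfl).trans ?_
    rw [commutator_le]
    intro y hy c hc
    have h1 : ⁅y, c⁆ ∈ T := commutator_le_left T ⊤ (commutator_mem_commutator hy (mem_top c))
    have h2 : ⁅y, c⁆ ∈ Q := by
      rw [← commutatorElement_inv]
      apply Q.inv_mem
      exact mem_cen.1 hc.2 y hy.1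
    exact mem_of_coprime_pow _ _ r s hrs h1.2 h2.2
  obtain ⟨c, hc⟩ := hnil
  have h3 := Pool.Agent.H648R4.hall hFC hc hC1
  exact haF (hmax C hCn h3 haC)

end Pool.Agent.Helper11Z
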