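import Pool.Agent.Helper11Z.Rel

/-!
# The length of the Fitting series is bounded
-/

set_option autoImplicit false
open CategoryTheory

namespace Pool.Agent.Helper11Z

open Subgroup commutatorElement

variable {G : Type} [Group G]

/-- `F` is the Fitting series. -/
structure Ser (F : ℕ → Subgroup G) : Prop where
  normal : ∀ i, (F i).Normal
  le : ∀ i, F i ≤ F (i + 1)
  nil : ∀ i, ∃ n, (F (i + 1)).lowerCentralSeries n ≤ F i
  max : ∀ i, ∀ L : Subgroup G, L.Normal → (∃ n, L.lowerCentralSeries n ≤ F i) → L ≤ F (i + 1)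

theorem Ser.mono {F : ℕ → Subgroup G} (hF : Ser F) : Monotone F := monotone_nat_of_le_succ hF.le

/-- A normal subgroup that is abelian modulo `N`. -/
theorem exists_ab (N K : Subgroup G) [N.Normal] [K.Normal] (hNK : N ≤ K) (hne : N ≠ K)
    (hnil : ∃ n, K.lowerCentralSeries n ≤ N) :
    ∃ A : Subgroup G, A.Normal ∧ N ≤ A ∧ A ≤ K ∧ (∃ x ∈ A, x ∉ N) ∧ ⁅A, A⁆ ≤ N := by
  classical
  have h0 : Nat.find hnil ≠ 0 := by
    intro h
    have h1 := Nat.find_spec hnil
    rw [h] at h1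
    exact hne (le_antisymm hNK h1)
  obtain ⟨k, hk⟩ := Nat.exists_eq_succ_of_ne_zero h0
  have h1 := Nat.find_spec hnil
  rw [hk, Nat.succ_eq_add_one, Subgroup.lowerCentralSeries_succ] at h1
  have h2 : ¬ K.lowerCentralSeries k ≤ N := by
    intro h
    have := Nat.find_min' hnil h
    omega
  set L : Subgroup G := K.lowerCentralSeries k with hL
  have hLn : L.Normal := inferInstance
  have hLK : L ≤ K := Subgroup.lowerCentralSeries_le_self K k
  obtain ⟨x, hxL, hxN⟩ := SetLike.not_le_iff_exists.1 h2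
  refine ⟨L ⊔ N, inferInstance, le_sup_right, sup_le hLK hNK, ⟨x, mem_sup_left hxL, hxN⟩, ?_⟩
  refine (Pool.Agent.H648R4.sup_comm_le L N (L ⊔ N)).trans (sup_le ?_ (commutator_le_left _ _))
  rw [commutator_comm]
  refine (Pool.Agent.H648R4.sup_comm_le L N L).trans (sup_le ?_ (commutator_le_left _ _))
  exact (commutator_mono le_rfl hLK).trans h1

/-- The condition carried along the induction. -/
structure Good (F : ℕ → Subgroup G) (e : ℕ) (X : Set G) : Prop where
  conj : ∀ x ∈ X, ∀ g : G, g * x * g⁻¹ ∈ X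
  coset : ∀ x ∈ X, ∀ f ∈ F e, x * f ∈ X
  disj : ∀ x ∈ X, x ∉ F e
  van : ∃ V : FDRep ℂ G, Simple V ∧ ∀ x ∈ X, V.character x = 0

theorem height_step [Finite G] (F : ℕ → Subgroup G) (hF : Ser F) (M : ℕ)
    (hM : ∀ V : FDRep ℂ G, Simple V → zs V.character ≤ M) (e k : ℕ) (X : Set G)
    (he : 2 * M + 2 ≤ e) (hne : ∀ i < e, F i ≠ F (i + 1)) (hX : Good F e X)
    (hk : k ≤ (ConjClasses.mk '' X).ncard) :
    ∃ (e' : ℕ) (X' : Set G), e ≤ e' + (2 * M + 1) ∧ e' ≤ e ∧ Good F e' X' ∧
      k + 1 ≤ (ConjClasses.mk '' X').ncard := by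
  classical
  have hn : ∀ i, (F i).Normal := hF.normal
  -- the numbers of classes
  let c : ℕ → ℕ := fun i => (cl (F i) '' X).ncard
  have hanti : ∀ i j, i ≤ j → c j ≤ c i := fun i j hij =>
    cl_ncard_anti (F i) (F j) (hF.mono hij) X
  have hcM : ∀ i, c i ≤ M := by
    intro i
    obtain ⟨V, hV, hVX⟩ := hX.van
    exact ((cl_ncard_le_mk (F i) X).trans (ncard_le_zs V X hVX)).trans (hM V hV)
  obtain ⟨l, hl, hcl⟩ : ∃ l ≤ M, c (e - 2 * l) = c (e - 2 * (l + 1)) := by
    by_contra hcon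
    push Not at hcon
    have h1 : ∀ l ≤ M + 1, l ≤ c (e - 2 * l) := by
      intro l
      induction l with
      | zero => intro _; exact Nat.zero_le _
      | succ l ih =>
        intro hl
        have h2 := ih (by omega)
        have h3 := hcon l (by omega)
        have h4 := hanti (e - 2 * (l + 1)) (e - 2 * l) (by omega)
        omega
    have h2 := h1 (M + 1) le_rfl
    have h3 := hcM (e - 2 * (M + 1))
    omega
  -- indices
  obtain ⟨s, hs⟩ : ∃ s, e - 2 * l = s + 2 := ⟨e - 2 * l - 2, by omega⟩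
  have hs' : e - 2 * (l + 1) = s := by omega
  rw [hs, hs'] at hcl
  have hst : s + 2 ≤ e := by omega
  obtain ⟨A, hAn, hFA, hAF, ⟨a, haA, haF⟩, hab⟩ := exists_ab (F (s + 1)) (F (s + 2)) (hF.le _)
    (hne (s + 1) (by omega)) (hF.nil (s + 1))
  obtain ⟨V, hV, hVA, hVN⟩ := step_rel (F s) (F (s + 1)) A (hF.le s) hFA (hF.nil s) (hF.max s) hab
  have haV : V.ρ a ≠ 1 := by
    intro h
    have h1 := hVA a haA haF
    have h2 : V.character a = V.character 1 :=
      congrArg (LinearMap.trace ℂ V) (h.trans (map_one V.ρ).symm)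
    rw [h1] at h2
    exact Pool.Agent.W367.SN.irr_one_ne (Γ := G) ⟨V, hV, rfl⟩ h2.symm
  have hVX : ∀ x ∈ X, V.character x = 0 := by
    intro x hx
    refine vanish_coset V hV (F (s + 2)) inferInstance a (hAF haA) haV x (fun r hr => ?_)
    apply hVN
    have hxr : x * r ∈ X := hX.coset x hx r (hF.mono hst hr)
    apply cl_inj (F s) (F (s + 2)) (hF.mono (by omega)) X hcl hxr hx
    exact cl_mul _ _ _ hr
  refine ⟨s + 1, X ∪ {x | x ∈ A ∧ x ∉ F (s + 1)}, by omega, by omega, ⟨?_, ?_, ?_, V, hV, ?_⟩, ?_⟩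
  · rintro x (hx | ⟨hx, hx'⟩) g
    · exact Or.inl (hX.conj x hx g)
    · right
      refine ⟨hAn.conj_mem x hx g, fun h => hx' ?_⟩
      have h1 := (hn (s + 1)).conj_mem _ h g⁻¹
      have h2 : g⁻¹ * (g * x * g⁻¹) * g⁻¹⁻¹ = x := by group
      rwa [h2] at h1
  · rintro x (hx | ⟨hx, hx'⟩) f hf
    · exact Or.inl (hX.coset x hx f (hF.mono (by omega) hf))
    · right
      refine ⟨A.mul_mem hx (hFA hf), fun h => hx' ?_⟩
      exact ((F (s + 1)).mul_mem_cancel_right hf).1 h
  · rintro x (hx | ⟨hx, hx'⟩)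
    · intro h
      exact hX.disj x hx (hF.mono (by omega) h)
    · exact hx'
  · rintro x (hx | ⟨hx, hx'⟩)
    · exact hVX x hx
    · exact hVA x hx hx'
  · have hsub : insert (ConjClasses.mk a) (ConjClasses.mk '' X) ⊆
        ConjClasses.mk '' (X ∪ {x | x ∈ A ∧ x ∉ F (s + 1)}) := by
      rw [Set.insert_subset_iff]
      refine ⟨⟨a, Or.inr ⟨haA, haF⟩, rfl⟩, Set.image_mono Set.subset_union_left⟩
    have hnot : ConjClasses.mk a ∉ ConjClasses.mk '' X := by
      rintro ⟨x, hx, hxa⟩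
      rw [ConjClasses.mk_eq_mk_iff_isConj, isConj_iff] at hxa
      obtain ⟨g, hg⟩ := hxa
      have h1 : a ∈ X := by rw [← hg]; exact hX.conj x hx g
      exact hX.disj a h1 (hF.mono hst (hAF haA))
    have h1 := Set.ncard_le_ncard hsub (Set.toFinite _)
    rw [Set.ncard_insert_of_notMem hnot (Set.toFinite _)] at h1
    omega

/-- The length of the Fitting series is bounded. -/
theorem height_bound [Finite G] (F : ℕ → Subgroup G) (hF : Ser F) (M : ℕ)
    (hM : ∀ V : FDRep ℂ G, Simple V → zs V.character ≤ M) (h : ℕ)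
    (hne : ∀ i < h, F i ≠ F (i + 1)) : h < M * (2 * M + 1) + (2 * M + 2) := by
  by_contra hcon
  push Not at hcon
  have key : ∀ k ≤ M + 1, ∃ (e : ℕ) (X : Set G), h ≤ e + k * (2 * M + 1) ∧ e ≤ h ∧ Good F e X ∧
      k ≤ (ConjClasses.mk '' X).ncard := by
    intro k
    induction k with
    | zero =>
      intro _
      refine ⟨h, ∅, by omega, le_rfl, ⟨?_, ?_, ?_, ?_⟩, Nat.zero_le _⟩
      · intro x hx; exact absurd hx (Set.notMem_empty x)
      · intro x hx; exact absurd hx (Set.notMem_empty x)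
      · intro x hx; exact absurd hx (Set.notMem_empty x)
      · obtain ⟨V, hV⟩ := exists_simple' G
        exact ⟨V, hV, fun x hx => absurd hx (Set.notMem_empty x)⟩
    | succ k ih =>
      intro hk
      obtain ⟨e, X, h1, h2, h3, h4⟩ := ih (by omega)
      have h5 : k * (2 * M + 1) ≤ M * (2 * M + 1) := Nat.mul_le_mul_right _ (by omega)
      obtain ⟨e', X', h6, h7, h8, h9⟩ := height_step F hF M hM e k X (by omega)
        (fun i hi => hne i (by omega)) h3 h4
      refine ⟨e', X', ?_, by omega, h8, h9⟩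
      rw [add_mul, one_mul]
      omega
  obtain ⟨e, X, _, _, h3, h4⟩ := key (M + 1) le_rfl
  obtain ⟨V, hV, hVX⟩ := h3.van
  have h5 := (ncard_le_zs V X hVX).trans (hM V hV)
  omega

end Pool.Agent.Helper11Z
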