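import Pool.Agent.Helper11Z.CardK
import Pool.Agent.Helper11Z.Height

/-!
# The index of the Fitting subgroup
-/

set_option autoImplicit false
open CategoryTheory

namespace Pool.Agent.Helper11Z

open Subgroup commutatorElement

variable {G : Type} [Group G]

/-- Existence of the relative Fitting subgroup. -/
theorem exists_fit [Finite G] (N : Subgroup G) [N.Normal] :
    ∃ P : Subgroup G, P.Normal ∧ N ≤ P ∧ (∃ n, P.lowerCentralSeries n ≤ N) ∧
      ∀ L : Subgroup G, L.Normal → (∃ n, L.lowerCentralSeries n ≤ N) → L ≤ P := by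
  have h1 : {L : Subgroup G | L.Normal ∧ ∃ n, L.lowerCentralSeries n ≤ N}.Nonempty :=
    ⟨N, inferInstance, 0, le_rfl⟩
  obtain ⟨P, hP⟩ := Set.Finite.exists_maximal (Set.toFinite _) h1
  obtain ⟨hPn, n, hPnil⟩ := hP.1
  have key : ∀ L : Subgroup G, L.Normal → (∃ n, L.lowerCentralSeries n ≤ N) → L ≤ P := by
    rintro L hL ⟨m, hLm⟩
    have hmem : P ⊔ L ∈ {L : Subgroup G | L.Normal ∧ ∃ n, L.lowerCentralSeries n ≤ N} := by
      refine ⟨inferInstance, ?_⟩
      have : (P.map (QuotientGroup.mk' N)).Normal :=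
        Normal.map hPn _ (QuotientGroup.mk'_surjective N)
      have : (L.map (QuotientGroup.mk' N)).Normal :=
        Normal.map hL _ (QuotientGroup.mk'_surjective N)
      have h2 : Group.IsNilpotent (P.map (QuotientGroup.mk' N)) :=
        (isNilpotent_iff_lowerCentralSeries _).2 ⟨n, (lcs_le_iff P N n).1 hPnil⟩
      have h3 : Group.IsNilpotent (L.map (QuotientGroup.mk' N)) :=
        (isNilpotent_iff_lowerCentralSeries _).2 ⟨m, (lcs_le_iff L N m).1 hLm⟩
      have h4 := Pool.Agent.H648R4.fitting_thm h2 h3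
      rw [← Subgroup.map_sup] at h4
      obtain ⟨k, hk⟩ := (isNilpotent_iff_lowerCentralSeries _).1 h4
      exact ⟨k, (lcs_le_iff _ N k).2 hk⟩
    exact le_sup_right.trans (hP.2 hmem le_sup_left)
  exact ⟨P, hPn, key N inferInstance ⟨0, le_rfl⟩, ⟨n, hPnil⟩, key⟩

/-- Existence of the Fitting series. -/
theorem exists_ser [Finite G] : ∃ F : ℕ → Subgroup G, F 0 = ⊥ ∧ Ser F := by
  classical
  have hex : ∀ N : {N : Subgroup G // N.Normal}, ∃ P : {N : Subgroup G // N.Normal},
      N.1 ≤ P.1 ∧ (∃ n, P.1.lowerCentralSeries n ≤ N.1) ∧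
      ∀ L : Subgroup G, L.Normal → (∃ n, L.lowerCentralSeries n ≤ N.1) → L ≤ P.1 := by
    rintro ⟨N, hN⟩
    obtain ⟨P, h1, h2⟩ := exists_fit N
    exact ⟨⟨P, h1⟩, h2⟩
  choose nx hnx using hex
  let F : ℕ → {N : Subgroup G // N.Normal} := fun i =>
    Nat.rec ⟨⊥, inferInstance⟩ (fun _ N => nx N) i
  have hF : ∀ i, F (i + 1) = nx (F i) := fun _ => rfl
  refine ⟨fun i => (F i).1, rfl, ⟨fun i => (F i).2, fun i => ?_, fun i => ?_, fun i => ?_⟩⟩
  · rw [hF]; exact (hnx (F i)).1
  · rw [hF]; exact (hnx (F i)).2.1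
  · rw [hF]; exact (hnx (F i)).2.2

/-- The number of zeros does not grow when passing to quotients. -/
theorem zs_quot [Finite G] (N : Subgroup G) [N.Normal] (M : ℕ)
    (hM : ∀ V : FDRep ℂ G, Simple V → zs V.character ≤ M) (V : FDRep ℂ (G ⧸ N))
    (hV : Simple V) : zs V.character ≤ M := by
  obtain ⟨W, hW, hWV⟩ := inflate (QuotientGroup.mk' N) (QuotientGroup.mk'_surjective N) V hV
  refine le_trans ?_ (hM W hW)
  have hsub : {c : ConjClasses (G ⧸ N) | ∀ g, ConjClasses.mk g = c → V.character g = 0} ⊆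
      ConjClasses.map (QuotientGroup.mk' N) ''
        {c : ConjClasses G | ∀ g, ConjClasses.mk g = c → W.character g = 0} := by
    intro c hc
    obtain ⟨h, rfl⟩ := ConjClasses.exists_rep c
    obtain ⟨g, rfl⟩ := QuotientGroup.mk'_surjective N h
    refine ⟨ConjClasses.mk g, ?_, rfl⟩
    intro g' hg'
    rw [hWV]
    apply hc
    exact congrArg (ConjClasses.map (QuotientGroup.mk' N)) hg'
  exact (Set.ncard_le_ncard hsub (Set.toFinite _)).trans (Set.ncard_image_le (Set.toFinite _))

/-- One step down the Fitting series. -/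
theorem index_step [Finite G] (F : ℕ → Subgroup G) (hF : Ser F) (M : ℕ)
    (hM : ∀ V : FDRep ℂ G, Simple V → zs V.character ≤ M) (i : ℕ) :
    (F (i + 1)).index ≤ (F (i + 2)).index * bdK M (F (i + 2)).index := by
  have hn : ∀ i, (F i).Normal := hF.normal
  set N : Subgroup G := F (i + 1) with hN
  set π : G →* G ⧸ N := QuotientGroup.mk' N with hπ
  have hs : Function.Surjective π := QuotientGroup.mk'_surjective N
  have hker : π.ker = N := QuotientGroup.ker_mk' N
  set K : Subgroup (G ⧸ N) := (F (i + 2)).map π with hKdef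
  have hKn : K.Normal := Normal.map (hn _) _ hs
  have hnil : ∃ n, K.lowerCentralSeries n = ⊥ := by
    obtain ⟨n, hn'⟩ := hF.nil (i + 1)
    exact ⟨n, (lcs_le_iff _ N n).1 hn'⟩
  have hidx : K.index = (F (i + 2)).index := by
    have h1 : K.comap π = F (i + 2) := by
      rw [hKdef, Subgroup.comap_map_eq, hker, sup_eq_left]
      exact hF.le _
    rw [← h1, Subgroup.index_comap_of_surjective _ hs]
  have hab : ∀ A : Subgroup (G ⧸ N), A.Normal → ⁅A, A⁆ = ⊥ →
      (ConjClasses.mk '' {x | x ∈ A ∧ x ≠ 1}).ncard ≤ M := by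
    intro A hA hA0
    have hAn : (A.comap π).Normal := Normal.comap hA π
    have hNA : N ≤ A.comap π := hker.ge.trans (Subgroup.ker_le_comap π A)
    have hcc : ⁅A.comap π, A.comap π⁆ ≤ π.ker := by
      rw [← Subgroup.map_eq_bot_iff, Subgroup.map_commutator,
        Subgroup.map_comap_eq_self_of_surjective hs, hA0]
    obtain ⟨V, hV, hVA, _⟩ := step_rel (F i) N (A.comap π) (hF.le i) hNA (hF.nil i) (hF.max i)
      (hcc.trans hker.le)
    have hsub : ConjClasses.mk '' {x | x ∈ A ∧ x ≠ 1} ⊆
        ConjClasses.map π '' (ConjClasses.mk '' {x | x ∈ A.comap π ∧ x ∉ N}) := by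
      rintro _ ⟨x, ⟨hx, hx1⟩, rfl⟩
      obtain ⟨g, rfl⟩ := hs x
      refine ⟨ConjClasses.mk g, ⟨g, ⟨hx, fun h => hx1 ?_⟩, rfl⟩, rfl⟩
      exact (QuotientGroup.eq_one_iff g).2 h
    refine (Set.ncard_le_ncard hsub (Set.toFinite _)).trans ?_
    refine (Set.ncard_image_le (Set.toFinite _)).trans ?_
    exact (ncard_le_zs V _ (fun x hx => hVA x hx.1 hx.2)).trans (hM V hV)
  have hcard := card_K K hnil M (zs_quot N M hM) hab
  have h1 : N.index = Nat.card K * K.index := by
    rw [Subgroup.card_mul_index]; rfl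
  rw [h1, hidx, mul_comm]
  rw [hidx] at hcard
  exact Nat.mul_le_mul_left _ hcard

/-- One step of the bound. -/
def bd1 (M b : ℕ) : ℕ := b * bdK M b

theorem bd1_mono (M : ℕ) : Monotone (bd1 M) := by
  intro b b' h
  rcases Nat.eq_zero_or_pos b with rfl | hb
  · simp [bd1]
  · exact Nat.mul_le_mul h (bdK_mono M hb h)

/-- The final bound. -/
def bdF (M r : ℕ) : ℕ := (bd1 M)^[M * (2 * M + 1) + (2 * M + 2)] r

theorem bdF_mono (M : ℕ) : Monotone (bdF M) := (bd1_mono M).iterate _

theorem index_iter [Finite G] (F : ℕ → Subgroup G) (hF : Ser F) (M : ℕ)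
    (hM : ∀ V : FDRep ℂ G, Simple V → zs V.character ≤ M) (j : ℕ) :
    ∀ i, (F (i + 1)).index ≤ (bd1 M)^[j] (F (i + 1 + j)).index := by
  induction j with
  | zero => intro i; exact le_rfl
  | succ j ih =>
    intro i
    refine (index_step F hF M hM i).trans ?_
    rw [Function.iterate_succ_apply']
    have h1 := ih (i + 1)
    have h2 := bd1_mono M h1
    have e : i + 1 + 1 + j = i + 1 + (j + 1) := by omega
    rw [e] at h2
    exact h2

/-- The main bound. -/
theorem main [Finite G] (M : ℕ) (hM : ∀ V : FDRep ℂ G, Simple V → zs V.character ≤ M)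
    (R : Subgroup G) (hR : R.Normal) (hRs : Group.IsSolvable R) :
    ∃ F : Subgroup G, F.Normal ∧ Group.IsNilpotent F ∧ F.index ≤ bdF M R.index := by
  obtain ⟨F, hF0, hF⟩ := exists_ser (G := G)
  have hn : ∀ i, (F i).Normal := hF.normal
  set T : ℕ := M * (2 * M + 1) + (2 * M + 2) with hT
  obtain ⟨i, hiT, hi⟩ : ∃ i < T, F i = F (i + 1) := by
    by_contra hcon
    push Not at hcon
    exact absurd (height_bound F hF M hM T hcon) (lt_irrefl _)
  have hconst : ∀ k, F (i + k) = F i := by
    intro k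
    induction k with
    | zero => rfl
    | succ k ih =>
      have h1 : F (i + (k + 1)) ≤ F (i + 1) := by
        apply hF.max i _ (hn _)
        obtain ⟨n, hn'⟩ := hF.nil (i + k)
        exact ⟨n, hn'.trans ih.le⟩
      exact le_antisymm (h1.trans hi.ge) (hF.mono (by omega))
  have hRF : R ≤ F i := by
    obtain ⟨n, hn'⟩ := hRs.solvable
    let L : ℕ → Subgroup G := fun k => (derivedSeries R k).map R.subtype
    have hL0 : L 0 = R := by
      simp only [L, derivedSeries_zero]
      rw [← MonoidHom.range_eq_map, Subgroup.range_subtype]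
    have hLs : ∀ k, L (k + 1) = ⁅L k, L k⁆ := by
      intro k
      simp only [L, derivedSeries_succ]
      exact Subgroup.map_commutator _ _ _
    have hLn : ∀ k, (L k).Normal := by
      intro k
      induction k with
      | zero => rw [hL0]; exact hR
      | succ k ih => rw [hLs]; infer_instance
    have key : ∀ k, L (n - k) ≤ F i := by
      intro k
      induction k with
      | zero =>
        have : L n = ⊥ := by
          simp only [L, hn']
          exact Subgroup.map_bot _
        rw [Nat.sub_zero, this]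
        exact bot_le
      | succ k ih =>
        rcases Nat.lt_or_ge k n with hk | hk
        · have e : n - k = (n - (k + 1)) + 1 := by omega
          rw [e, hLs] at ih
          refine le_trans (hF.max i _ (hLn _) ⟨1, ?_⟩) hi.ge
          exact ih
        · have e : n - (k + 1) = n - k := by omega
          rw [e]
          exact ih
    have := key n
    rwa [Nat.sub_self, hL0] at this
  refine ⟨F 1, hn 1, ?_, ?_⟩
  · obtain ⟨n, hn'⟩ := hF.nil 0
    rw [hF0, le_bot_iff] at hn'
    exact (isNilpotent_iff_lowerCentralSeries _).2 ⟨n, hn'⟩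
  · have h1 := index_iter F hF M hM T 0
    have h2 : F (0 + 1 + T) = F i := by
      have := hconst (0 + 1 + T - i)
      have e : i + (0 + 1 + T - i) = 0 + 1 + T := by omega
      rwa [e] at this
    rw [h2] at h1
    refine h1.trans ?_
    have h3 : (F i).index ≤ R.index := by
      apply Nat.le_of_dvd (Nat.pos_of_ne_zero R.index_ne_zero_of_finite)
      exact Subgroup.index_dvd_of_le hRF
    exact bdF_mono M h3

end Pool.Agent.Helper11Z
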