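import Mathlib

/-!
# A regular orbit lemma for commuting operators
-/

set_option autoImplicit false

namespace Pool.Agent.Helper11Z

/-- If a homomorphism fixes two coprime powers of an element then it fixes the element. -/
theorem fix_of_coprime {V : Type} [CommGroup V] (T : Monoid.End V) (x : V) (q r : ℕ)
    (h : Nat.Coprime q r) (hq : T (x ^ q) = x ^ q) (hr : T (x ^ r) = x ^ r) : T x = x := by
  have h1 : (T x * x⁻¹) ^ q = 1 := by
    rw [mul_pow, ← map_pow, hq, inv_pow, mul_inv_cancel]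
  have h2 : (T x * x⁻¹) ^ r = 1 := by
    rw [mul_pow, ← map_pow, hr, inv_pow, mul_inv_cancel]
  have h3 : orderOf (T x * x⁻¹) ∣ 1 := by
    rw [← Nat.Coprime.gcd_eq_one h]
    exact Nat.dvd_gcd (orderOf_dvd_of_pow_eq_one h1) (orderOf_dvd_of_pow_eq_one h2)
  have h4 : T x * x⁻¹ = 1 := orderOf_eq_one_iff.1 (Nat.dvd_one.1 h3)
  exact mul_inv_eq_one.1 h4

theorem eq_one_of_coprime {V : Type} [CommGroup V] (x : V) (q r : ℕ)
    (h : Nat.Coprime q r) (hq : x ^ q = 1) (hr : x ^ r = 1) : x = 1 := by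
  have h3 : orderOf x ∣ 1 := by
    rw [← Nat.Coprime.gcd_eq_one h]
    exact Nat.dvd_gcd (orderOf_dvd_of_pow_eq_one hq) (orderOf_dvd_of_pow_eq_one hr)
  exact orderOf_eq_one_iff.1 (Nat.dvd_one.1 h3)

/-- An element outside a normal subgroup has a power outside the subgroup whose power with a
prime exponent lies in the subgroup. -/
theorem exists_prime_pow {G : Type} [Group G] [Finite G] (F : Subgroup G) (hF : F.Normal) (a : G)
    (ha : a ∉ F) : ∃ n q : ℕ, q.Prime ∧ a ^ n ∉ F ∧ (a ^ n) ^ q ∈ F := by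
  have h1 : orderOf (a : G ⧸ F) ≠ 1 := by
    intro h
    rw [orderOf_eq_one_iff, QuotientGroup.eq_one_iff] at h
    exact ha h
  obtain ⟨q, hq, k, hk⟩ := Nat.exists_prime_and_dvd h1
  have hpos : 0 < orderOf (a : G ⧸ F) := orderOf_pos _
  refine ⟨k, q, hq, ?_, ?_⟩
  · intro h
    rw [← QuotientGroup.eq_one_iff] at h
    have h2 : ((a : G ⧸ F)) ^ k = 1 := h
    have h3 : k = 0 ∨ orderOf (a : G ⧸ F) ≤ k := by
      rcases Nat.eq_zero_or_pos k with h0 | h0
      · exact Or.inl h0
      · exact Or.inr (orderOf_le_of_pow_eq_one h0 h2)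
    rcases h3 with h3 | h3
    · rw [h3, mul_zero] at hk; omega
    · have h4 := hq.two_le
      rw [hk] at h3 hpos
      have : 0 < k := Nat.pos_of_ne_zero (fun h0 => by rw [h0] at hpos; simp at hpos)
      nlinarith
  · rw [← QuotientGroup.eq_one_iff]
    have h2 : ((a : G ⧸ F)) ^ (k * q) = 1 := by
      rw [mul_comm, ← hk]; exact pow_orderOf_eq_one _
    rw [pow_mul] at h2
    exact h2

/-- The product of the translates under the first `q` powers of `b`. -/
def norm {G V : Type} [Group G] [CommGroup V] (T : G →* Monoid.End V) (b : G) (q : ℕ) :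
    V →* V where
  toFun v := ∏ i ∈ Finset.range q, T (b ^ i) v
  map_one' := by simp
  map_mul' x y := by simp only [map_mul, Finset.prod_mul_distrib]

theorem norm_apply {G V : Type} [Group G] [CommGroup V] (T : G →* Monoid.End V) (b : G) (q : ℕ)
    (v : V) : norm T b q v = ∏ i ∈ Finset.range q, T (b ^ i) v := rfl

theorem norm_fix {G V : Type} [Group G] [CommGroup V] (T : G →* Monoid.End V) (b : G) (q : ℕ)
    (v : V) (h : T b v = v) : norm T b q v = v ^ q := by
  rw [norm_apply]
  have h1 : ∀ i : ℕ, T (b ^ i) v = v := by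
    intro i
    induction i with
    | zero => simp
    | succ i ih => rw [pow_succ, map_mul]; change T (b ^ i) (T b v) = v; rw [h, ih]
  rw [Finset.prod_congr rfl (fun i _ => h1 i), Finset.prod_const, Finset.card_range]

theorem norm_fixed {G V : Type} [Group G] [CommGroup V] (T : G →* Monoid.End V) (b : G) (q : ℕ)
    (hb : T (b ^ q) = 1) (v : V) : T b (norm T b q v) = norm T b q v := by
  rw [norm_apply, map_prod]
  have h1 : ∀ i : ℕ, T b (T (b ^ i) v) = T (b ^ (i + 1)) v := by
    intro i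
    rw [pow_succ', map_mul]; rfl
  rw [Finset.prod_congr rfl (fun i _ => h1 i)]
  have h2 := Finset.prod_range_succ (fun i => T (b ^ i) v) q
  have h3 := Finset.prod_range_succ' (fun i => T (b ^ i) v) q
  rw [h2, hb] at h3
  simp only [pow_zero, map_one] at h3
  exact (mul_right_cancel h3).symm

theorem norm_comm {G V : Type} [Group G] [CommGroup V] (T : G →* Monoid.End V) (a b : G) (q : ℕ)
    (hab : T a * T b = T b * T a) (v : V) : T a (norm T b q v) = norm T b q (T a v) := by
  rw [norm_apply, norm_apply, map_prod]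
  apply Finset.prod_congr rfl
  intro i _
  have h : Commute (T a) (T (b ^ i)) := by
    rw [map_pow]; exact (show Commute (T a) (T b) from hab).pow_right i
  have h2 := congrArg (fun f : Monoid.End V => f v) h.eq
  exact h2

/-- The regular orbit lemma. -/
theorem regular {G V : Type} [Group G] [Finite G] [CommGroup V] (T : G →* Monoid.End V)
    (A F : Subgroup G) (hFn : F.Normal) (hF : ∀ f ∈ F, T f = 1)
    (hA : ∀ a ∈ A, ∀ b ∈ A, T a * T b = T b * T a)
    (h : ∀ a ∈ A, a ∉ F → ∀ q : ℕ, q.Prime → a ^ q ∈ F →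
      ∃ (u : V) (r : ℕ), u ^ r = 1 ∧ Nat.Coprime q r ∧ T a u ≠ u) :
    ∃ v : V, ∀ a ∈ A, T a v = v → a ∈ F := by
  classical
  by_contra hcon
  push Not at hcon
  -- choose `v` with the smallest stabiliser
  obtain ⟨v, hv⟩ : ∃ v : V, ∀ v' : V, {a | a ∈ A ∧ T a v = v}.ncard ≤
      {a | a ∈ A ∧ T a v' = v'}.ncard := by
    have h1 := WellFounded.has_min (measure (fun v : V => {a | a ∈ A ∧ T a v = v}.ncard)).wf
      Set.univ ⟨1, trivial⟩
    obtain ⟨v, _, hv⟩ := h1
    refine ⟨v, fun v' => ?_⟩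
    have := hv v' trivial
    change ¬ ({a | a ∈ A ∧ T a v' = v'}.ncard < {a | a ∈ A ∧ T a v = v}.ncard) at this
    omega
  obtain ⟨a, haA, hav, haF⟩ := hcon v
  obtain ⟨n, q, hq, hb1, hb2⟩ := exists_prime_pow F hFn a haF
  set b : G := a ^ n with hb
  have hbA : b ∈ A := A.pow_mem haA n
  have hbv : T b v = v := by
    have h1 : ∀ i : ℕ, T (a ^ i) v = v := by
      intro i
      induction i with
      | zero => simp
      | succ i ih => rw [pow_succ, map_mul]; change T (a ^ i) (T a v) = v; rw [hav, ih]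
    exact h1 n
  obtain ⟨u, r, hur, hqr, hu⟩ := h b hbA hb1 q hq hb2
  have hTb : T (b ^ q) = 1 := hF _ hb2
  set u' : V := u ^ q * (norm T b q u)⁻¹ with hu'
  have hNu' : norm T b q u' = 1 := by
    rw [hu', map_mul, map_inv, map_pow, norm_fix T b q _ (norm_fixed T b q hTb u),
      mul_inv_cancel]
  have hu'r : u' ^ r = 1 := by
    rw [hu', mul_pow, ← pow_mul, mul_comm q r, pow_mul, hur, one_pow, one_mul, inv_pow, ← map_pow,
      hur, map_one, inv_one]
  have hu'1 : T b u' ≠ u' := by
    intro h0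
    have h1 : u' = 1 := by
      apply eq_one_of_coprime u' q r hqr _ hu'r
      rw [← norm_fix T b q u' h0, hNu']
    have h2 : u ^ q = norm T b q u := by
      rw [hu'] at h1
      exact mul_inv_eq_one.1 h1
    apply hu
    apply fix_of_coprime (T b) u q r hqr
    · rw [h2]; exact norm_fixed T b q hTb u
    · rw [hur, map_one]
  have hsub : {x | x ∈ A ∧ T x (v * u') = v * u'} ⊂ {x | x ∈ A ∧ T x v = v} := by
    rw [Set.ssubset_iff_of_subset]
    · refine ⟨b, ⟨hbA, hbv⟩, ?_⟩
      rintro ⟨_, h0⟩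
      rw [map_mul, hbv] at h0
      exact hu'1 (mul_left_cancel h0)
    · rintro x ⟨hxA, hx⟩
      refine ⟨hxA, ?_⟩
      apply fix_of_coprime (T x) v q r hqr
      · have h1 : norm T b q (v * u') = v ^ q := by
          rw [map_mul, hNu', mul_one, norm_fix T b q v hbv]
        rw [← h1, norm_comm T x b q (hA x hxA b hbA), hx]
      · have h1 : (v * u') ^ r = v ^ r := by rw [mul_pow, hu'r, mul_one]
        rw [← h1, map_pow, hx]
  have h1 := Set.ncard_lt_ncard hsub (Set.toFinite _)
  have h2 := hv (v * u')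
  omega

end Pool.Agent.Helper11Z
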