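import Pool.Agent.Helper11Z.Step

/-!
# Relative version of the vanishing result and class counting
-/

set_option autoImplicit false
open CategoryTheory

namespace Pool.Agent.Helper11Z

open Subgroup commutatorElement

variable {G : Type} [Group G]

/-- The conjugacy class modulo a normal subgroup. -/
def cl (N : Subgroup G) [N.Normal] (x : G) : ConjClasses (G ⧸ N) := ConjClasses.mk (x : G ⧸ N)

theorem cl_eq_iff (N : Subgroup G) [N.Normal] (x y : G) :
    cl N x = cl N y ↔ IsConj (x : G ⧸ N) (y : G ⧸ N) := ConjClasses.mk_eq_mk_iff_isConj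

theorem cl_conj (N : Subgroup G) [N.Normal] (x g : G) : cl N (g * x * g⁻¹) = cl N x := by
  rw [eq_comm, cl_eq_iff, isConj_iff]
  exact ⟨(g : G ⧸ N), rfl⟩

theorem cl_mul (N : Subgroup G) [N.Normal] (x n : G) (hn : n ∈ N) : cl N (x * n) = cl N x := by
  unfold cl
  congr 1
  rw [QuotientGroup.mk_mul, (QuotientGroup.eq_one_iff n).2 hn, mul_one]

theorem cl_factor (N N' : Subgroup G) [N.Normal] [N'.Normal] (h : N ≤ N') :
    ∃ φ : ConjClasses (G ⧸ N) → ConjClasses (G ⧸ N'), ∀ x, cl N' x = φ (cl N x) :=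
  ⟨ConjClasses.map (QuotientGroup.map N N' (MonoidHom.id G) h), fun _ => rfl⟩

theorem cl_mono (N N' : Subgroup G) [N.Normal] [N'.Normal] (h : N ≤ N') {x y : G}
    (hxy : cl N x = cl N y) : cl N' x = cl N' y := by
  obtain ⟨φ, hφ⟩ := cl_factor N N' h
  rw [hφ, hφ, hxy]

/-- The number of classes of zeros. -/
noncomputable def zs (χ : G → ℂ) : ℕ :=
  {c : ConjClasses G | ∀ g : G, ConjClasses.mk g = c → χ g = 0}.ncard

theorem ncard_le_zs [Finite G] (V : FDRep ℂ G) (X : Set G) (hX : ∀ x ∈ X, V.character x = 0) :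
    (ConjClasses.mk '' X).ncard ≤ zs V.character := by
  apply Set.ncard_le_ncard _ (Set.toFinite _)
  rintro _ ⟨x, hx, rfl⟩ g hg
  rw [ConjClasses.mk_eq_mk_iff_isConj, isConj_iff] at hg
  obtain ⟨c, hc⟩ := hg
  rw [← hX x hx, ← hc, V.char_conj]

/-- Fewer classes modulo a normal subgroup. -/
theorem cl_ncard_le_mk [Finite G] (N : Subgroup G) [N.Normal] (X : Set G) :
    (cl N '' X).ncard ≤ (ConjClasses.mk '' X).ncard := by
  have h : cl N '' X = ConjClasses.map (QuotientGroup.mk' N) '' (ConjClasses.mk '' X) := by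
    rw [Set.image_image]; rfl
  rw [h]
  exact Set.ncard_image_le (Set.toFinite _)

theorem cl_ncard_anti [Finite G] (N N' : Subgroup G) [N.Normal] [N'.Normal] (h : N ≤ N')
    (X : Set G) : (cl N' '' X).ncard ≤ (cl N '' X).ncard := by
  obtain ⟨φ, hφ⟩ := cl_factor N N' h
  have h2 : cl N' '' X = φ '' (cl N '' X) := by
    rw [Set.image_image]
    exact Set.image_congr (fun x _ => hφ x)
  rw [h2]
  exact Set.ncard_image_le (Set.toFinite _)

/-- If passing from `N` to `N'` does not change the number of classes in `X`, then elements of `X`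
conjugate modulo `N'` are conjugate modulo `N`. -/
theorem cl_inj [Finite G] (N N' : Subgroup G) [N.Normal] [N'.Normal] (h : N ≤ N')
    (X : Set G) (he : (cl N' '' X).ncard = (cl N '' X).ncard) {x y : G} (hx : x ∈ X) (hy : y ∈ X)
    (hxy : cl N' x = cl N' y) : cl N x = cl N y := by
  obtain ⟨φ, hφ⟩ := cl_factor N N' h
  have h2 : cl N' '' X = φ '' (cl N '' X) := by
    rw [Set.image_image]
    exact Set.image_congr (fun x _ => hφ x)
  rw [h2] at he
  have hinj := Set.injOn_of_ncard_image_eq he (Set.toFinite _)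
  apply hinj ⟨x, hx, rfl⟩ ⟨y, hy, rfl⟩
  rw [← hφ, ← hφ, hxy]

/-- Relative version of `step`. -/
theorem step_rel [Finite G] (N F A : Subgroup G) [N.Normal] [F.Normal] [A.Normal] (hNF : N ≤ F)
    (hFA : F ≤ A) (hnil : ∃ n, F.lowerCentralSeries n ≤ N)
    (hmax : ∀ L : Subgroup G, L.Normal → (∃ n, L.lowerCentralSeries n ≤ N) → L ≤ F)
    (hab : ⁅A, A⁆ ≤ F) :
    ∃ V : FDRep ℂ G, Simple V ∧ (∀ x ∈ A, x ∉ F → V.character x = 0) ∧
      ∀ x y : G, cl N x = cl N y → V.character x = V.character y := by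
  set π : G →* G ⧸ N := QuotientGroup.mk' N with hπ
  have hs : Function.Surjective π := QuotientGroup.mk'_surjective N
  have : (F.map π).Normal := Normal.map inferInstance _ hs
  have : (A.map π).Normal := Normal.map inferInstance _ hs
  obtain ⟨V, hV, hV0⟩ := step (F.map π) (A.map π) (map_mono hFA) (by
      obtain ⟨n, hn⟩ := hnil
      exact ⟨n, (lcs_le_iff F N n).1 hn⟩) (by
      rintro L hL ⟨n, hn⟩
      have h1 : (L.comap π).map π = L := map_comap_eq_self_of_surjective hs L
      have h2 : L.comap π ≤ F := by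
        apply hmax _ (Normal.comap hL π)
        refine ⟨n, ?_⟩
        rw [lcs_le_iff, ← hπ, h1]
        exact hn
      rw [← h1]
      exact map_mono h2) (by
      rw [← map_commutator]
      exact map_mono hab)
  obtain ⟨W, hW, hWV⟩ := inflate π hs V hV
  refine ⟨W, hW, ?_, ?_⟩
  · intro x hx hxF
    rw [hWV]
    apply hV0
    · exact ⟨x, hx, rfl⟩
    · rintro ⟨y, hy, hyx⟩
      apply hxF
      have h1 : y⁻¹ * x ∈ N := QuotientGroup.eq.1 hyx
      have h2 : x = y * (y⁻¹ * x) := by group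
      rw [h2]
      exact F.mul_mem hy (hNF h1)
  · intro x y hxy
    rw [hWV, hWV]
    rw [cl_eq_iff, isConj_iff] at hxy
    obtain ⟨c, hc⟩ := hxy
    change V.character (x : G ⧸ N) = V.character (y : G ⧸ N)
    rw [← hc, V.char_conj]

end Pool.Agent.Helper11Z
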