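import Pool.Agent.Helper11Z.Char
import Pool.Agent.Helper11Z.Reg
import Pool.Agent.Helper11Z.Faith

/-!
# An irreducible character vanishing on an abelian section above the Fitting subgroup
-/

set_option autoImplicit false
open CategoryTheory

namespace Pool.Agent.Helper11Z

open Subgroup commutatorElement

variable {G : Type} [Group G]

/-- Conjugation action on the linear characters of a normal subgroup. -/
def act (F : Subgroup G) [F.Normal] : G →* Monoid.End (F →* ℂˣ) where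
  toFun g :=
    { toFun := fun φ => φ.comp (MulAut.conjNormal g⁻¹ : MulAut F).toMonoidHom
      map_one' := rfl
      map_mul' := fun φ ψ => rfl }
  map_one' := by
    ext φ x
    change ((φ ((MulAut.conjNormal (1 : G)⁻¹ : MulAut F) x) : ℂˣ) : ℂ) = φ x
    rw [inv_one, map_one]
    rfl
  map_mul' g h := by
    ext φ x
    change ((φ ((MulAut.conjNormal (g * h)⁻¹ : MulAut F) x) : ℂˣ) : ℂ) =
      φ ((MulAut.conjNormal h⁻¹ : MulAut F) ((MulAut.conjNormal g⁻¹ : MulAut F) x))
    rw [mul_inv_rev, map_mul]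
    rfl

theorem act_apply (F : Subgroup G) [F.Normal] (g : G) (φ : F →* ℂˣ) (x : F) :
    act F g φ x = φ ((MulAut.conjNormal g⁻¹ : MulAut F) x) := rfl

theorem act_self (F : Subgroup G) [F.Normal] (f : G) (hf : f ∈ F) : act F f = 1 := by
  ext φ x
  change ((φ ((MulAut.conjNormal f⁻¹ : MulAut F) x) : ℂˣ) : ℂ) = φ x
  have h1 : (MulAut.conjNormal f⁻¹ : MulAut F) x = (⟨f, hf⟩ : F)⁻¹ * x * ⟨f, hf⟩ := by
    apply Subtype.ext
    rw [MulAut.conjNormal_apply]
    simp
  rw [h1, map_mul, map_mul, map_inv]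
  simp

/-- Linear characters separate the elements outside the commutator subgroup. -/
theorem exists_lin_ne [Finite G] (F : Subgroup G) (z : F) (hz : (z : G) ∉ ⁅F, F⁆) :
    ∃ φ : F →* ℂˣ, φ z ≠ 1 := by
  have h1 : Abelianization.of z ≠ 1 := by
    intro h
    apply hz
    have h2 : z ∈ (Abelianization.of (G := F)).ker := h
    rw [Abelianization.ker_of] at h2
    have h3 : (z : G) ∈ (commutator F).map F.subtype := ⟨z, h2, rfl⟩
    rwa [Subgroup.map_subtype_commutator] at h3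
  have : Finite (Abelianization F) := inferInstance
  obtain ⟨φ, hφ⟩ := CommGroup.exists_apply_ne_one_of_hasEnoughRootsOfUnity (Abelianization F) ℂ h1
  exact ⟨φ.comp Abelianization.of, hφ⟩

/-- A linear character of the Fitting subgroup with trivial stabiliser. -/
theorem exists_lin [Finite G] (F A : Subgroup G) [F.Normal] [A.Normal] (hFA : F ≤ A)
    (hnil : ∃ n, F.lowerCentralSeries n = ⊥)
    (hmax : ∀ L : Subgroup G, L.Normal → (∃ n, L.lowerCentralSeries n = ⊥) → L ≤ F)
    (hab : ⁅A, A⁆ ≤ F) : ∃ φ : F →* ℂˣ, ∀ a ∈ A, act F a φ = φ → a ∈ F := by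
  apply regular (act F) A F inferInstance (act_self F)
  · intro a ha b hb
    rw [← map_mul, ← map_mul]
    have h1 : a * b = b * a * ⁅a⁻¹, b⁻¹⁆ := by
      rw [commutatorElement_def]; group
    have h2 : ⁅a⁻¹, b⁻¹⁆ ∈ F := hab (commutator_mem_commutator (A.inv_mem ha) (A.inv_mem hb))
    rw [h1, map_mul, act_self F _ h2, mul_one]
  · intro a ha haF q hq haq
    obtain ⟨r, s, hqr, hone, x, hx, hxs⟩ := faithful F A hFA hnil hmax hab a ha haF q hq haq
    have hc : ⁅a, x⁆ ∈ F := commutator_le_right ⊤ F (commutator_mem_commutator (mem_top a) hx)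
    obtain ⟨ψ, hψ⟩ := exists_lin_ne F (⟨⁅a, x⁆, hc⟩ ^ s) hxs
    refine ⟨ψ ^ s, r, ?_, hqr, ?_⟩
    · ext y
      have h5 : y ^ (s * r) = 1 := Subtype.ext (by simpa using hone y)
      have h6 : (ψ y) ^ (s * r) = 1 := by rw [← map_pow, h5, map_one]
      have h7 : ((ψ ^ s) ^ r) y = 1 := by
        rw [MonoidHom.pow_apply, MonoidHom.pow_apply, ← pow_mul, h6]
      exact congrArg Units.val h7
    · intro h
      apply hψ
      have hx' : a * x * a⁻¹ ∈ F := Normal.conj_mem inferInstance x hx a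
      have h1 : (act F a (ψ ^ s)) ⟨a * x * a⁻¹, hx'⟩ = (ψ ^ s) ⟨a * x * a⁻¹, hx'⟩ := by rw [h]
      rw [act_apply] at h1
      have h2 : (MulAut.conjNormal a⁻¹ : MulAut F) ⟨a * x * a⁻¹, hx'⟩ = ⟨x, hx⟩ := by
        apply Subtype.ext
        rw [MulAut.conjNormal_apply]
        change a⁻¹ * (a * x * a⁻¹) * a⁻¹⁻¹ = x
        group
      rw [h2] at h1
      have h3 : (⟨⁅a, x⁆, hc⟩ : F) = ⟨a * x * a⁻¹, hx'⟩ * (⟨x, hx⟩ : F)⁻¹ := rfl
      rw [map_pow, ← MonoidHom.pow_apply, h3, map_mul, map_inv, h1, mul_inv_cancel]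

/-- An irreducible character vanishing on `A \ F`. -/
theorem step [Finite G] (F A : Subgroup G) [F.Normal] [A.Normal] (hFA : F ≤ A)
    (hnil : ∃ n, F.lowerCentralSeries n = ⊥)
    (hmax : ∀ L : Subgroup G, L.Normal → (∃ n, L.lowerCentralSeries n = ⊥) → L ≤ F)
    (hab : ⁅A, A⁆ ≤ F) :
    ∃ V : FDRep ℂ G, Simple V ∧ ∀ x ∈ A, x ∉ F → V.character x = 0 := by
  classical
  have := Fintype.ofFinite F
  obtain ⟨φ, hφ⟩ := exists_lin F A hFA hnil hmax hab
  obtain ⟨V, hV, w, hw, hwφ⟩ := exists_over F φ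
  refine ⟨V, hV, fun x hx hxF => ?_⟩
  let m : G → ℂ := fun z => if h : z ∈ F then (φ ⟨z, h⟩ : ℂ) else 0
  have hm : ∀ (z : G) (hz : z ∈ F), m z = φ ⟨z, hz⟩ := fun z hz => dif_pos hz
  refine vanish V hV F inferInstance m w hw (fun a ha => ?_) F x (fun y hy => ?_) (fun g => ?_)
  · rw [hm a ha]; exact hwφ ⟨a, ha⟩
  · have h1 : x⁻¹ * y⁻¹ * x ∈ F := by
      have := Normal.conj_mem inferInstance _ (F.inv_mem hy) x⁻¹
      simpa using this
    exact F.mul_mem h1 hy
  · set x' : G := g⁻¹ * x * g with hx'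
    have hx'A : x' ∈ A := by
      have := Normal.conj_mem (inferInstance : A.Normal) x hx g⁻¹
      simpa using this
    have hx'F : x' ∉ F := by
      intro h
      apply hxF
      have := Normal.conj_mem (inferInstance : F.Normal) x' h g
      have h2 : g * x' * g⁻¹ = x := by rw [hx']; group
      rwa [h2] at this
    have hne : act F x' φ ≠ φ := fun h => hx'F (hφ x' hx'A h)
    let ψ : F →* ℂˣ := (act F x' φ)⁻¹ * φ
    have hψ : ψ ≠ 1 := by
      intro h
      apply hne
      exact (inv_mul_eq_one.1 h)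
    have h0 : ∑ y : F, ((Units.coeHom ℂ).comp ψ) y = 0 := by
      apply sum_hom_units_eq_zero
      intro h
      apply hψ
      ext y
      have := congrArg (fun f : F →* ℂ => f y) h
      exact this
    have h5 := Equiv.sum_comp (MulAut.conjNormal g⁻¹ : MulAut F).toEquiv
      (fun y => ((Units.coeHom ℂ).comp ψ) y)
    rw [← h0, ← h5]
    apply Finset.sum_congr rfl
    intro y _
    set y' : F := (MulAut.conjNormal g⁻¹ : MulAut F) y with hy'
    have hy'v : (y' : G) = g⁻¹ * y * g := by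
      rw [hy', MulAut.conjNormal_apply, inv_inv]
    change m (g⁻¹ * (x⁻¹ * (y : G)⁻¹ * x * y) * g) = ((ψ y' : ℂˣ) : ℂ)
    have e1 : g⁻¹ * (x⁻¹ * (y : G)⁻¹ * x * y) * g =
        (((MulAut.conjNormal x'⁻¹ : MulAut F) y')⁻¹ * y' : F) := by
      rw [Subgroup.coe_mul, Subgroup.coe_inv, MulAut.conjNormal_apply, hy'v, hx']
      group
    rw [e1, hm _ (SetLike.coe_mem _)]
    change ((φ (((MulAut.conjNormal x'⁻¹ : MulAut F) y')⁻¹ * y') : ℂˣ) : ℂ) = _
    rw [map_mul, map_inv]
    rfl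

end Pool.Agent.Helper11Z
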